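import Pool.Agent.ANO2.Geo2.AffB
import Pool.Agent.ANO2.Geo2.Normal

/-!
# ANO phase 2, Cone2: the area `∫ |q|` is invariant under affine homeomorphisms

* `area_local`: take `D1, D2` as in `AffAt` at `z` and a small open neighbourhood `N ⊆ U` of `z`
  on which `D1` is holomorphic with `D1'² = q ≠ 0`, injective (`HasStrictDerivAt`, `q z ≠ 0`), the relation
  `D2 (φ w) = str l (D1 w)` holds, and such that `φ '' N` is contained in an open
  neighbourhood of `φ z` with the same properties for `D2` (`Aff.ne_zero`, continuity of `φ`).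
  For a measurable `A ⊆ N` the change of variables formula
  `MeasureTheory.lintegral_abs_det_fderiv_eq_addHaar_image` (the real determinant of the
  multiplication by `D1' w` is `‖D1' w‖² = ‖q w‖`) gives `area A = volume (D1 '' A)` and
  `area (φ '' A) = volume (D2 '' (φ '' A)) = volume (str l '' (D1 '' A))`, and `str l` is
  a linear map of determinant `1` (`Measure.addHaar_image_linearMap`; compare
  `Pool/Agent/ANO/Cone/Return.lean`, `volume_affine`).  `φ '' A` is measurable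
  (`MeasurableSet.image_of_continuousOn_injOn`).
-/

set_option autoImplicit false

open Set Filter Topology MeasureTheory

namespace Pool.Agent.ANO2.Cone

open Geo2

variable {Q : QD}

/-- The area `∫ |q|`. -/
noncomputable def area (Q : QD) : Measure ℂ := volume.withDensity fun z => ENNReal.ofReal ‖Q.q z‖

/-- The real-linear map `str l`. -/
private noncomputable def areaaLM (l : ℝ) : ℂ →ₗ[ℝ] ℂ where
  toFun z := str l z
  map_add' z w := by
    apply Complex.ext
    · simp only [str, Complex.add_re]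
      ring
    · simp only [str, Complex.add_im]
      ring
  map_smul' a z := by
    apply Complex.ext
    · simp [str]
      ring
    · simp [str]
      ring

private theorem areaa_det {l : ℝ} (hl : l ≠ 0) : LinearMap.det (areaaLM l) = 1 := by
  rw [← LinearMap.det_toMatrix Complex.basisOneI, Matrix.det_fin_two]
  simp only [LinearMap.toMatrix_apply, Complex.coe_basisOneI, Complex.coe_basisOneI_repr]
  simp [areaaLM, str]
  field_simp

private theorem areaa_volume_str {l : ℝ} (hl : l ≠ 0) (B : Set ℂ) :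
    volume (str l '' B) = volume B := by
  have h1 : str l '' B = areaaLM l '' B := rfl
  rw [h1, Measure.addHaar_image_linearMap, areaa_det hl]
  simp

private theorem areaa_absdet (c : ℂ) :
    |(((1 : ℂ →L[ℂ] ℂ).smulRight c).restrictScalars ℝ).det| = ‖c ^ 2‖ := by
  have h1 : (((1 : ℂ →L[ℂ] ℂ).smulRight c).restrictScalars ℝ).det =
      LinearMap.det ((((1 : ℂ →L[ℂ] ℂ).smulRight c : ℂ →L[ℂ] ℂ) : ℂ →ₗ[ℂ] ℂ).restrictScalars ℝ) :=
    rfl
  have h2 : LinearMap.det (((1 : ℂ →L[ℂ] ℂ).smulRight c : ℂ →L[ℂ] ℂ) : ℂ →ₗ[ℂ] ℂ) = c := by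
    rw [LinearMap.det_ring]
    simp
  rw [h1, LinearMap.det_restrictScalars, h2, Algebra.norm_complex_apply,
    Complex.normSq_eq_norm_sq, abs_of_nonneg (by positivity), norm_pow]

/-- The change of variables formula for a branch of `∫ √q`. -/
private theorem areaa_branch {D : ℂ → ℂ} {A : Set ℂ} (hA : MeasurableSet A)
    (hd : ∀ w ∈ A, DifferentiableAt ℂ D w) (he : ∀ w ∈ A, deriv D w ^ 2 = Q.q w)
    (hi : InjOn D A) : area Q A = volume (D '' A) := by
  have h1 : ∀ w ∈ A, HasFDerivWithinAt D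
      (((1 : ℂ →L[ℂ] ℂ).smulRight (deriv D w)).restrictScalars ℝ) A w := fun w hw =>
    ((hd w hw).hasDerivAt.hasFDerivAt.restrictScalars ℝ).hasFDerivWithinAt
  have h2 := lintegral_abs_det_fderiv_eq_addHaar_image volume hA h1 hi
  rw [← h2, area, withDensity_apply _ hA]
  refine setLIntegral_congr_fun hA fun w hw => ?_
  rw [areaa_absdet, he w hw]

/-- A branch of `∫ √q` is injective near a regular point. -/
private theorem areaa_nhds {D : ℂ → ℂ} {z : ℂ} (ha : AnalyticAt ℂ D z)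
    (he : ∀ᶠ w in 𝓝 z, deriv D w ^ 2 = Q.q w) (h0 : Q.q z ≠ 0) :
    ∃ W ∈ 𝓝 z, InjOn D W ∧ (∀ w ∈ W, DifferentiableAt ℂ D w) ∧
      ∀ w ∈ W, deriv D w ^ 2 = Q.q w := by
  have hd0 : deriv D z ≠ 0 := by
    intro h1
    have h2 := he.self_of_nhds
    rw [h1] at h2
    apply h0
    rw [← h2]
    norm_num
  have hst : HasStrictDerivAt D (deriv D z) z := ha.hasStrictDerivAt
  have hl : ∀ᶠ x in 𝓝 z, hst.localInverse D (deriv D z) z hd0 (D x) = x :=
    hst.eventually_left_inverse hd0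
  have hd : ∀ᶠ w in 𝓝 z, DifferentiableAt ℂ D w := by
    filter_upwards [ha.eventually_analyticAt] with w hw
    exact hw.differentiableAt
  refine ⟨_, inter_mem hl (inter_mem hd he), ?_, fun w hw => hw.2.1, fun w hw => hw.2.2⟩
  intro x hx y hy hxy
  have h1 : hst.localInverse D (deriv D z) z hd0 (D x) = x := hx.1
  have h2 : hst.localInverse D (deriv D z) z hd0 (D y) = y := hy.1
  rw [← h1, ← h2, hxy]

theorem area_local {φ φ' : ℂ → ℂ} {l : ℝ} (h : Aff Q φ φ' l) {z : ℂ} (hz : z ∈ Q.U)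
    (h0 : Q.q z ≠ 0) : ∃ N : Set ℂ, IsOpen N ∧ z ∈ N ∧ N ⊆ Q.U ∧
      ∀ A ⊆ N, MeasurableSet A → area Q (φ '' A) = area Q A := by
  obtain ⟨D1, D2, a1, a2, e1, e2, e3⟩ := h.aff z hz h0
  obtain ⟨W1, hW1, i1, d1, q1⟩ := areaa_nhds a1 e1 h0
  obtain ⟨W2, hW2, i2, d2, q2⟩ := areaa_nhds a2 e2 (h.ne_zero hz h0)
  have hφc : ContinuousAt φ z := h.cont.continuousAt (Q.isOpen.mem_nhds hz)
  have hN : W1 ∩ (φ ⁻¹' W2 ∩ ({w | D2 (φ w) = str l (D1 w)} ∩ Q.U)) ∈ 𝓝 z :=
    inter_mem hW1 (inter_mem (hφc hW2) (inter_mem e3 (Q.isOpen.mem_nhds hz)))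
  obtain ⟨N, hNs, hNo, hzN⟩ := mem_nhds_iff.mp hN
  refine ⟨N, hNo, hzN, fun w hw => (hNs hw).2.2.2, fun A hA hAm => ?_⟩
  have hφi : InjOn φ A := by
    intro x hx y hy hxy
    have h1 := h.left x (hNs (hA hx)).2.2.2
    have h2 := h.left y (hNs (hA hy)).2.2.2
    rw [← h1, ← h2, hxy]
  have hφm : MeasurableSet (φ '' A) :=
    hAm.image_of_continuousOn_injOn (h.cont.mono fun w hw => (hNs (hA hw)).2.2.2) hφi
  have hsub : ∀ w ∈ φ '' A, w ∈ W2 := by
    rintro _ ⟨w, hw, rfl⟩
    exact (hNs (hA hw)).2.1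
  rw [areaa_branch hφm (fun w hw => d2 w (hsub w hw)) (fun w hw => q2 w (hsub w hw))
    (i2.mono hsub), areaa_branch hAm (fun w hw => d1 w (hNs (hA hw)).1)
    (fun w hw => q1 w (hNs (hA hw)).1) (i1.mono fun w hw => (hNs (hA hw)).1), image_image]
  have h1 : (fun w => D2 (φ w)) '' A = str l '' (D1 '' A) := by
    rw [image_image]
    exact image_congr fun w hw => (hNs (hA hw)).2.2.1
  rw [h1, areaa_volume_str h.pos.ne']

end Pool.Agent.ANO2.Cone
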