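import Pool.Agent.ANO2.Cone.AreaA

/-!
# ANO phase 2, Cone2: the area `∫ |q|`, 2

* `area_image`: the part of `A` in the zero set of `q` and its image (contained in the zero set,
  `Aff.zero`) have area `0` (the density vanishes on the zero set); the open set `{z ∈ U | q z ≠ 0}` is
  covered by countably many `N` as in `area_local` (Lindelöf), make them disjoint and add up
  (`φ` is injective on `U`).
* `area_compact`: `|q|` is bounded on `K`.
* `area_ne_zero`: `A` contains a point with `q z ≠ 0` (`isolated`) and a small ball about this point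
  on which `|q| ≥ c > 0`.
-/

set_option autoImplicit false

open Set Filter Topology MeasureTheory

namespace Pool.Agent.ANO2.Cone

open Geo2

variable {Q : QD}

private theorem area_apply_AreaB {A : Set ℂ} (hA : MeasurableSet A) :
    area Q A = ∫⁻ z in A, ENNReal.ofReal ‖Q.q z‖ := by
  unfold area
  rw [withDensity_apply _ hA]

private theorem area_zero_AreaB {A : Set ℂ} (hU : A ⊆ Q.U) (h0 : ∀ z ∈ A, Q.q z = 0) :
    area Q A = 0 := by
  have hc : ({z | z ∈ Q.U ∧ Q.q z = 0} : Set ℂ).Countable := countable_zeros Q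
  have hA : A.Countable := hc.mono (fun z hz => (⟨hU hz, h0 z hz⟩ : z ∈ Q.U ∧ Q.q z = 0))
  have h1 : volume A = 0 := hA.measure_zero volume
  exact withDensity_absolutelyContinuous _ _ h1

theorem area_image {φ φ' : ℂ → ℂ} {l : ℝ} (h : Aff Q φ φ' l) {A : Set ℂ}
    (hA : MeasurableSet A) (hU : A ⊆ Q.U) : area Q (φ '' A) = area Q A := by
  classical
  have hinj : InjOn φ Q.U := fun x hx y hy hxy => by
    rw [← h.left x hx, ← h.left y hy, hxy]
  have hcq : ContinuousOn Q.q Q.U := Q.holo.continuousOn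
  have hZm : MeasurableSet {z | z ∈ Q.U ∧ Q.q z = 0} := (countable_zeros Q).measurableSet
  -- the zero part
  have hz1 : area Q (A ∩ {z | z ∈ Q.U ∧ Q.q z = 0}) = 0 :=
    area_zero_AreaB (fun z hz => hU hz.1) fun z hz => hz.2.2
  have hz2 : area Q (φ '' (A ∩ {z | z ∈ Q.U ∧ Q.q z = 0})) = 0 := by
    refine area_zero_AreaB ?_ ?_
    · rintro _ ⟨z, hz, rfl⟩
      exact h.maps (hU hz.1)
    · rintro _ ⟨z, hz, rfl⟩
      exact h.zero (hU hz.1) hz.2.2
  -- the other part
  set A' : Set ℂ := A \ {z | z ∈ Q.U ∧ Q.q z = 0} with hA'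
  have hA'm : MeasurableSet A' := hA.diff hZm
  have hloc : ∀ z : A', ∃ N : Set ℂ, IsOpen N ∧ z.1 ∈ N ∧ N ⊆ Q.U ∧
      ∀ B ⊆ N, MeasurableSet B → area Q (φ '' B) = area Q B := fun z =>
    area_local h (hU z.2.1) fun h0 => z.2.2 ⟨hU z.2.1, h0⟩
  choose N hN1 hN2 hN3 hN4 using hloc
  obtain ⟨T, hT, hcov⟩ := TopologicalSpace.isOpen_iUnion_countable N hN1
  have key : area Q (φ '' A') = area Q A' := by
    rcases T.eq_empty_or_nonempty with rfl | hne
    · have : A' = ∅ := by
        rw [eq_empty_iff_forall_notMem]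
        intro z hz
        have h1 : z ∈ ⋃ i, N i := mem_iUnion.2 ⟨⟨z, hz⟩, hN2 ⟨z, hz⟩⟩
        rw [← hcov] at h1
        simp at h1
      rw [this, image_empty]
    · obtain ⟨f, hf⟩ := hT.exists_eq_range hne
      let M : ℕ → Set ℂ := fun n => A' ∩ disjointed (fun n => N (f n)) n
      have hMm : ∀ n, MeasurableSet (M n) := fun n =>
        hA'm.inter (MeasurableSet.disjointed (fun n => (hN1 (f n)).measurableSet) n)
      have hMN : ∀ n, M n ⊆ N (f n) := fun n z hz => disjointed_subset _ n hz.2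
      have hMU : ∀ n, M n ⊆ Q.U := fun n z hz => hN3 _ (hMN n hz)
      have hMd : Pairwise (Function.onFun Disjoint M) := fun i j hij =>
        (disjoint_disjointed (fun n => N (f n)) hij).mono inter_subset_right inter_subset_right
      have hMunion : ⋃ n, M n = A' := by
        rw [← inter_iUnion, iUnion_disjointed]
        refine inter_eq_left.2 fun z hz => ?_
        have h1 : z ∈ ⋃ i, N i := mem_iUnion.2 ⟨⟨z, hz⟩, hN2 ⟨z, hz⟩⟩
        rw [← hcov] at h1
        obtain ⟨t, ht, hzt⟩ := mem_iUnion₂.1 h1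
        rw [hf] at ht
        obtain ⟨n, rfl⟩ := ht
        exact mem_iUnion.2 ⟨n, hzt⟩
      have hMi : ∀ n, MeasurableSet (φ '' M n) := fun n =>
        (hMm n).image_of_continuousOn_injOn (h.cont.mono (hMU n)) (hinj.mono (hMU n))
      have hId : Pairwise (Function.onFun Disjoint fun n => φ '' M n) := by
        intro i j hij
        refine Set.disjoint_left.2 ?_
        rintro _ ⟨x, hx, rfl⟩ ⟨y, hy, hxy⟩
        have := hinj (hMU j hy) (hMU i hx) hxy
        subst this
        exact Set.disjoint_left.1 (hMd hij) hx hy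
      rw [← hMunion, image_iUnion, measure_iUnion hId hMi, measure_iUnion hMd hMm]
      exact tsum_congr fun n => hN4 (f n) _ (hMN n) (hMm n)
  have hsplit : A = (A ∩ {z | z ∈ Q.U ∧ Q.q z = 0}) ∪ A' := (inter_union_sdiff A _).symm
  have e1 : area Q A = area Q A' := by
    refine le_antisymm ?_ (measure_mono sdiff_subset)
    calc area Q A = area Q ((A ∩ {z | z ∈ Q.U ∧ Q.q z = 0}) ∪ A') := by rw [← hsplit]
      _ ≤ area Q (A ∩ {z | z ∈ Q.U ∧ Q.q z = 0}) + area Q A' := measure_union_le _ _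
      _ = area Q A' := by rw [hz1, zero_add]
  have e2 : area Q (φ '' A) = area Q (φ '' A') := by
    refine le_antisymm ?_ (measure_mono (image_mono sdiff_subset))
    calc area Q (φ '' A) = area Q (φ '' (A ∩ {z | z ∈ Q.U ∧ Q.q z = 0}) ∪ φ '' A') := by
          rw [← image_union, ← hsplit]
      _ ≤ area Q (φ '' (A ∩ {z | z ∈ Q.U ∧ Q.q z = 0})) + area Q (φ '' A') :=
          measure_union_le _ _
      _ = area Q (φ '' A') := by rw [hz2, zero_add]
  rw [e1, e2, key]

theorem area_compact {K : Set ℂ} (hK : IsCompact K) (hU : K ⊆ Q.U) : area Q K ≠ ⊤ := by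
  have hc : ContinuousOn (fun z => ‖Q.q z‖) K := (Q.holo.continuousOn.mono hU).norm
  obtain ⟨C, hC⟩ := hK.bddAbove_image hc
  rw [area_apply_AreaB hK.measurableSet]
  refine ne_of_lt ?_
  calc ∫⁻ z in K, ENNReal.ofReal ‖Q.q z‖ ≤ ∫⁻ _ in K, ENNReal.ofReal C := by
        refine setLIntegral_mono' hK.measurableSet fun z hz => ?_
        exact ENNReal.ofReal_le_ofReal (hC (mem_image_of_mem _ hz))
    _ = ENNReal.ofReal C * volume K := by rw [setLIntegral_const]
    _ < ⊤ := ENNReal.mul_lt_top ENNReal.ofReal_lt_top hK.measure_lt_top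

theorem area_ne_zero {A : Set ℂ} (hA : IsOpen A) (hU : A ⊆ Q.U) (hne : A.Nonempty) :
    area Q A ≠ 0 := by
  obtain ⟨s, hs⟩ := hne
  have h1 := isolated Q (hU hs)
  have h2 : ∀ᶠ z in 𝓝[≠] s, z ∈ A := mem_nhdsWithin_of_mem_nhds (hA.mem_nhds hs)
  obtain ⟨z, hz1, hz2⟩ := (h1.and h2).exists
  have hcz : ContinuousAt Q.q z :=
    (Q.holo.continuousOn z (hU hz2)).continuousAt (Q.isOpen.mem_nhds (hU hz2))
  have h3 : ∀ᶠ w in 𝓝 z, ‖Q.q z‖ / 2 < ‖Q.q w‖ := by
    refine hcz.norm.eventually (lt_mem_nhds ?_)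
    have := norm_pos_iff.2 hz1
    linarith
  obtain ⟨W, hW, hWo, hzW⟩ := eventually_nhds_iff.1 (h3.and (hA.mem_nhds hz2))
  have h4 : W ⊆ A := fun w hw => (hW w hw).2
  have h5 : ENNReal.ofReal (‖Q.q z‖ / 2) * volume W ≤ area Q W := by
    rw [area_apply_AreaB hWo.measurableSet, ← setLIntegral_const]
    exact setLIntegral_mono' hWo.measurableSet fun w hw =>
      ENNReal.ofReal_le_ofReal (hW w hw).1.le
  have h6 : 0 < ENNReal.ofReal (‖Q.q z‖ / 2) * volume W := by
    refine ENNReal.mul_pos ?_ (hWo.measure_pos volume ⟨z, hzW⟩).ne'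
    have := norm_pos_iff.2 hz1
    exact (ENNReal.ofReal_pos.2 (by linarith)).ne'
  exact (lt_of_lt_of_le h6 (h5.trans (measure_mono h4))).ne'

end Pool.Agent.ANO2.Cone
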