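import Pool.Agent.ANO2.Geo2.AffB

/-!
# ANO phase 2, Cone2: affine homeomorphisms in flow boxes

`B.χ` is the chart of the flow box `B`, `B.D` the inverse of `B.χ` (`D'² = q` on `B.img`).

* `box_local`: if `φ (B.χ ζ0) = B.χ ζ1` with `ζ0, ζ1 ∈ B.dom` then
  `φ (B.χ ζ) = B.χ (ζ1 + e str l (ζ - ζ0))` for `ζ` near `ζ0`, `e = ± 1`: by `AffAt` at `B.χ ζ0`
  (`q ≠ 0` there by `B.eq`) and `branch_unique` (for `B.D` and `D1` at `B.χ ζ0`, for `B.D`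
  and `D2` at `B.χ ζ1`; `q ≠ 0`) `B.D (φ w) = e str l (B.D w) + c` for `w` near `B.χ ζ0`; insert
  `w = B.χ ζ`, `ζ` near `ζ0` (`B.D_χ`); `ζ = ζ0` gives `c`; apply `B.χ`
  (`φ (B.χ ζ) ∈ B.img` near `ζ0`).
-/

set_option autoImplicit false

open Set Filter Topology

namespace Pool.Agent.ANO2.Cone

open Geo2

variable {Q : QD}

/-- the open square -/
def Sq (ρ : ℝ) : Set ℂ := {ζ | |ζ.re| < ρ ∧ |ζ.im| < ρ}

private theorem boxA_str_add (l : ℝ) (z w : ℂ) : str l (z + w) = str l z + str l w := by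
  apply Complex.ext <;> simp [str, mul_add]

private theorem boxA_str_sub (l : ℝ) (z w : ℂ) : str l (z - w) = str l z - str l w := by
  apply Complex.ext <;> simp [str, mul_sub]

private theorem boxA_str_sign (l : ℝ) {e : ℂ} (he : e = 1 ∨ e = -1) (z : ℂ) :
    str l (e * z) = e * str l z := by
  rcases he with rfl | rfl
  · rw [one_mul, one_mul]
  · apply Complex.ext <;> simp [str]

private theorem boxA_q_ne (B : Box Q) {ζ : ℂ} (h : ζ ∈ B.dom) : Q.q (B.χ ζ) ≠ 0 := by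
  intro h0
  have h1 := B.eq ζ h
  rw [h0, zero_mul] at h1
  exact zero_ne_one h1

theorem box_local {φ φ' : ℂ → ℂ} {l : ℝ} (h : Aff Q φ φ' l) (B : Box Q) {ζ0 ζ1 : ℂ}
    (h0 : ζ0 ∈ B.dom) (h1 : ζ1 ∈ B.dom) (h2 : φ (B.χ ζ0) = B.χ ζ1) :
    ∃ e : ℂ, (e = 1 ∨ e = -1) ∧ ∀ᶠ ζ in 𝓝 ζ0, ζ1 + e * str l (ζ - ζ0) ∈ B.dom ∧
      φ (B.χ ζ) = B.χ (ζ1 + e * str l (ζ - ζ0)) := by
  have hm0 : B.χ ζ0 ∈ Q.U := B.mem ζ0 h0
  have hi0 : B.χ ζ0 ∈ B.img := ⟨ζ0, h0, rfl⟩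
  have hi1 : B.χ ζ1 ∈ B.img := ⟨ζ1, h1, rfl⟩
  obtain ⟨D1, D2, a1, a2, e1, e2, e3⟩ := h.aff _ hm0 (boxA_q_ne B h0)
  rw [h2] at a2 e2
  have hD : ∀ {z : ℂ}, z ∈ B.img → AnalyticAt ℂ B.D z ∧ ∀ᶠ w in 𝓝 z, deriv B.D w ^ 2 = Q.q w := by
    intro z hz
    refine ⟨B.D_holo.analyticAt (B.isOpen_img.mem_nhds hz), ?_⟩
    filter_upwards [B.isOpen_img.mem_nhds hz] with w hw
    exact B.deriv_D hw
  obtain ⟨e, c, he, hec⟩ := branch_unique (hD hi0).1 a1 (hD hi0).2 e1 (boxA_q_ne B h0)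
  obtain ⟨e', c', he', hec'⟩ := branch_unique a2 (hD hi1).1 e2 (hD hi1).2 (boxA_q_ne B h1)
  have hχ : ContinuousAt B.χ ζ0 :=
    (B.holo.continuousOn).continuousAt (B.isOpen_dom.mem_nhds h0)
  have hφ : ContinuousAt φ (B.χ ζ0) := h.cont.continuousAt (Q.isOpen.mem_nhds hm0)
  have hc : Tendsto (fun ζ => φ (B.χ ζ)) (𝓝 ζ0) (𝓝 (B.χ ζ1)) := by
    rw [← h2]
    exact hφ.tendsto.comp hχ.tendsto
  have key : ∀ᶠ ζ in 𝓝 ζ0, B.D (φ (B.χ ζ)) = e' * e * str l ζ + (e' * str l c + c') := by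
    filter_upwards [hχ.tendsto.eventually e3, hχ.tendsto.eventually hec, hc.eventually hec',
      B.isOpen_dom.mem_nhds h0] with ζ g1 g2 g3 g4
    rw [g3, g1, g2, B.D_χ g4, boxA_str_add, boxA_str_sign l he]
    ring
  have k0 := key.self_of_nhds
  rw [h2, B.D_χ h1] at k0
  refine ⟨e' * e, ?_, ?_⟩
  · rcases he with rfl | rfl <;> rcases he' with rfl | rfl <;> simp
  · filter_upwards [key, hc.eventually (B.isOpen_img.mem_nhds hi1)] with ζ g1 g2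
    have g3 : ζ1 + e' * e * str l (ζ - ζ0) = B.D (φ (B.χ ζ)) := by
      rw [g1, k0, boxA_str_sub]
      ring
    rw [g3]
    exact ⟨B.D_mem g2, (B.χ_D g2).symm⟩

end Pool.Agent.ANO2.Cone
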