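import Pool.Agent.ANO2.Cone.BoxA

/-!
# ANO phase 2, Cone2: fixed points of affine homeomorphisms in flow boxes

* `box_fixed`: compare `Pool/Agent/ANO/Cone/Box.lean`, `box_fixed`.  Let `e` be as in `box_local`
at `ζp`,
  `aff ζ = ζq + e str l (ζ - ζp)`, `R = {ζ | |Re (ζ - ζp)| < ρ / (2 l), |Im ζ| < ρ}`, a convex open
  subset of `B.dom` containing `ζp`, and `aff` maps `R` into `B.dom`.  The set
  `A = {ζ ∈ R | φ (B.χ ζ') = B.χ (aff ζ') for all ζ' near ζ}` is open and contains `ζp`; it is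
closed in `R`:
  for `ζ ∈ R ∩ closure A` `φ (B.χ ζ) = B.χ (aff ζ)` by continuity; so by `box_local`
  `φ (B.χ ζ') = B.χ (aff ζ + e' str l (ζ' - ζ))` near `ζ`; near `ζ` there are points of `A`, so the
  two affine maps agree on a nonempty open set, so `e' = e` (take two points
  with difference `t ∈ ℝ`, `t > 0`) and they are equal.  So `A = R`.  The affine
  map `aff` has a fixed point `ζ ∈ R` since `l > 8`: `Re (ζ - ζp) = Re (ζq - ζp) / (1 - e l)`,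
  `Im ζ = (Im ζq - e l⁻¹ Im ζp) / (1 - e l⁻¹)`.  Near `ζ`:
`φ (B.χ ζ') = B.χ (ζ + e str l (ζ' - ζ))`, that is,
  `B.D (φ z) - B.D w = e str l (B.D z - B.D w)` for `z` near `w = B.χ ζ`.
-/

set_option autoImplicit false

open Set Filter Topology

namespace Pool.Agent.ANO2.Cone

open Geo2

variable {Q : QD}

private theorem preconn_rect (a b c d : ℝ) :
    IsPreconnected {ζ : ℂ | (a < ζ.re ∧ ζ.re < b) ∧ (c < ζ.im ∧ ζ.im < d)} :=
  (((convex_halfSpace_re_gt a).inter (convex_halfSpace_re_lt b)).inter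
    ((convex_halfSpace_im_gt c).inter (convex_halfSpace_im_lt d))).isPreconnected

private theorem isOpen_rect (a b c d : ℝ) :
    IsOpen {ζ : ℂ | (a < ζ.re ∧ ζ.re < b) ∧ (c < ζ.im ∧ ζ.im < d)} :=
  ((isOpen_lt continuous_const Complex.continuous_re).inter
    (isOpen_lt Complex.continuous_re continuous_const)).inter
    ((isOpen_lt continuous_const Complex.continuous_im).inter
    (isOpen_lt Complex.continuous_im continuous_const))

private theorem str_add (l : ℝ) (z w : ℂ) : str l (z + w) = str l z + str l w := by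
  apply Complex.ext
  · simp [str, mul_add]
  · simp [str, mul_add]

private theorem str_ne {l : ℝ} (hl : 0 < l) {z : ℂ} (hz : z ≠ 0) : str l z ≠ 0 := by
  intro h
  apply hz
  have h1 : l * z.re = 0 := congrArg Complex.re h
  have h2 : l⁻¹ * z.im = 0 := congrArg Complex.im h
  apply Complex.ext
  · exact (mul_eq_zero.1 h1).resolve_left hl.ne'
  · exact (mul_eq_zero.1 h2).resolve_left (inv_pos.2 hl).ne'

theorem box_fixed {φ φ' : ℂ → ℂ} {l : ℝ} (h : Aff Q φ φ' l) (hl : 8 < l) (B : Box Q) {ρ : ℝ}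
    (hρ : 0 < ρ) (ha : B.a = -ρ) (hb : B.b = ρ) (hc : B.c = -ρ) (hd : B.d = ρ) {ζp ζq : ℂ}
    (hp : ζp ∈ Sq (ρ / 8)) (hq : ζq ∈ Sq (ρ / 8)) (h1 : φ (B.χ ζp) = B.χ ζq) :
    ∃ w ∈ B.img, φ w = w ∧ ∃ e : ℂ, (e = 1 ∨ e = -1) ∧
      ∀ᶠ z in 𝓝 w, B.D (φ z) - B.D w = e * str l (B.D z - B.D w) := by
  have hdom : ∀ ζ : ℂ, ζ ∈ B.dom ↔ |ζ.re| < ρ ∧ |ζ.im| < ρ := by
    intro ζ
    rw [Box.dom, Complex.mem_reProdIm, ha, hb, hc, hd, abs_lt, abs_lt]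
    exact Iff.rfl
  have hsub8 : ∀ ζ ∈ Sq (ρ / 8), ζ ∈ B.dom := fun ζ hζ =>
    (hdom ζ).2 ⟨lt_of_lt_of_le hζ.1 (by linarith), lt_of_lt_of_le hζ.2 (by linarith)⟩
  obtain ⟨ε, hε, hεl⟩ := box_local h B (hsub8 ζp hp) (hsub8 ζq hq) h1
  obtain ⟨s, hs, hs2⟩ : ∃ s : ℝ, (s = 1 ∨ s = -1) ∧ ε = s := by
    rcases hε with rfl | rfl
    · exact ⟨1, Or.inl rfl, by simp⟩
    · exact ⟨-1, Or.inr rfl, by simp⟩
  have hsabs : |s| = 1 := by
    rcases hs with rfl | rfl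
    · exact abs_one
    · rw [abs_neg, abs_one]
  have hre : ∀ w : ℂ, (ε * str l w).re = s * (l * w.re) := by
    intro w
    rw [hs2]
    simp [str]
  have him : ∀ w : ℂ, (ε * str l w).im = s * (l⁻¹ * w.im) := by
    intro w
    rw [hs2]
    simp [str]
  have hL0 : 0 < l := by linarith
  have hLi : l⁻¹ ≤ 1 / 8 := by
    rw [one_div]
    exact inv_anti₀ (by norm_num) hl.le
  have hLi0 : 0 < l⁻¹ := inv_pos.2 hL0
  have hp1 : |ζp.re| < ρ / 8 := hp.1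
  have hp2 : |ζp.im| < ρ / 8 := hp.2
  have hq1 : |ζq.re| < ρ / 8 := hq.1
  have hq2 : |ζq.im| < ρ / 8 := hq.2
  obtain ⟨aff, haff⟩ : ∃ aff : ℂ → ℂ, ∀ ζ, aff ζ = ζq + ε * str l (ζ - ζp) :=
    ⟨fun ζ => ζq + ε * str l (ζ - ζp), fun _ => rfl⟩
  have haffadd : ∀ ζ ζ' : ℂ, aff ζ' = aff ζ + ε * str l (ζ' - ζ) := by
    intro ζ ζ'
    rw [haff, haff]
    have h2 : ζ' - ζp = (ζ - ζp) + (ζ' - ζ) := by ring
    rw [h2, str_add]
    ring
  have haffc : Continuous aff := by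
    have h2 : Continuous fun w : ℂ => str l w := by
      have h3 : (fun w : ℂ => str l w) =
          fun w : ℂ => ((l * w.re : ℝ) : ℂ) + ((l⁻¹ * w.im : ℝ) : ℂ) * Complex.I := by
        funext w
        apply Complex.ext <;> simp [str]
      rw [h3]
      fun_prop
    have h3 : aff = fun ζ => ζq + ε * str l (ζ - ζp) := funext haff
    rw [h3]
    exact continuous_const.add (continuous_const.mul (h2.comp (continuous_id.sub continuous_const)))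
  obtain ⟨R, hRdef⟩ : ∃ R : Set ℂ, R = {ζ : ℂ | (ζp.re - ρ / (2 * l) < ζ.re ∧
      ζ.re < ζp.re + ρ / (2 * l)) ∧ (-ρ < ζ.im ∧ ζ.im < ρ)} := ⟨_, rfl⟩
  have hRm : ∀ ζ : ℂ, ζ ∈ R ↔ (ζp.re - ρ / (2 * l) < ζ.re ∧
      ζ.re < ζp.re + ρ / (2 * l)) ∧ (-ρ < ζ.im ∧ ζ.im < ρ) := by
    intro ζ
    rw [hRdef]
    exact Iff.rfl
  have hRo : IsOpen R := by
    rw [hRdef]
    exact isOpen_rect _ _ _ _
  have hRc : IsPreconnected R := by
    rw [hRdef]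
    exact preconn_rect _ _ _ _
  have hsmall : ρ / (2 * l) ≤ ρ / 16 := by
    apply div_le_div_of_nonneg_left hρ.le (by norm_num)
    linarith
  have hRx : ∀ ζ ∈ R, |ζ.re - ζp.re| < ρ / (2 * l) := by
    intro ζ hζ
    obtain ⟨⟨h2, h3⟩, -⟩ := (hRm ζ).1 hζ
    rw [abs_lt]
    constructor <;> linarith
  have hRy : ∀ ζ ∈ R, |ζ.im| < ρ := by
    intro ζ hζ
    obtain ⟨-, h2, h3⟩ := (hRm ζ).1 hζ
    exact abs_lt.2 ⟨h2, h3⟩
  have hR_sub : ∀ ζ ∈ R, ζ ∈ B.dom := by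
    intro ζ hζ
    refine (hdom ζ).2 ⟨?_, hRy ζ hζ⟩
    have h2 := hRx ζ hζ
    have h3 : |ζ.re| ≤ |ζ.re - ζp.re| + |ζp.re| := by
      have := abs_add_le (ζ.re - ζp.re) ζp.re
      rwa [sub_add_cancel] at this
    linarith
  have hR_aff : ∀ ζ ∈ R, aff ζ ∈ B.dom := by
    intro ζ hζ
    rw [hdom, haff]
    constructor
    · rw [Complex.add_re, hre, Complex.sub_re]
      have h2 := abs_add_le ζq.re (s * (l * (ζ.re - ζp.re)))
      have h3 : |s * (l * (ζ.re - ζp.re))| = l * |ζ.re - ζp.re| := by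
        rw [abs_mul, abs_mul, hsabs, one_mul, abs_of_pos hL0]
      have h4 : l * |ζ.re - ζp.re| < ρ / 2 := by
        have h5 := hRx ζ hζ
        rw [lt_div_iff₀ (by positivity)] at h5
        linarith
      linarith
    · rw [Complex.add_im, him, Complex.sub_im]
      have h2 := abs_add_le ζq.im (s * (l⁻¹ * (ζ.im - ζp.im)))
      have h3 : |s * (l⁻¹ * (ζ.im - ζp.im))| = l⁻¹ * |ζ.im - ζp.im| := by
        rw [abs_mul, abs_mul, hsabs, one_mul, abs_of_pos hLi0]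
      have h4 : |ζ.im - ζp.im| ≤ |ζ.im| + |ζp.im| := abs_sub _ _
      have h5 := hRy ζ hζ
      have h6 : l⁻¹ * |ζ.im - ζp.im| ≤ 1 / 8 * |ζ.im - ζp.im| :=
        mul_le_mul_of_nonneg_right hLi (abs_nonneg _)
      linarith
  -- the set where `φ ∘ χ = χ ∘ aff` nearby
  obtain ⟨A, hAdef⟩ : ∃ A : Set ℂ, A = {ζ | ζ ∈ R ∧ ∀ᶠ ζ' in 𝓝 ζ,
      φ (B.χ ζ') = B.χ (aff ζ')} := ⟨_, rfl⟩
  have hAm : ∀ ζ, ζ ∈ A ↔ ζ ∈ R ∧ ∀ᶠ ζ' in 𝓝 ζ, φ (B.χ ζ') = B.χ (aff ζ') := by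
    intro ζ
    rw [hAdef]
    exact Iff.rfl
  have hpR : ζp ∈ R := by
    refine (hRm _).2 ⟨⟨?_, ?_⟩, ?_, ?_⟩
    · have : 0 < ρ / (2 * l) := by positivity
      linarith
    · have : 0 < ρ / (2 * l) := by positivity
      linarith
    · linarith [(abs_lt.1 hp2).1]
    · linarith [(abs_lt.1 hp2).2]
  have hpA : ζp ∈ A := by
    refine (hAm _).2 ⟨hpR, ?_⟩
    filter_upwards [hεl] with ζ' h2
    rw [h2.2, haff]
  have hχat : ∀ ζ ∈ B.dom, ContinuousAt B.χ ζ := fun ζ hζ =>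
    (B.holo.differentiableAt (B.isOpen_dom.mem_nhds hζ)).continuousAt
  have hφat : ∀ ζ ∈ B.dom, ContinuousAt φ (B.χ ζ) := fun ζ hζ =>
    h.cont.continuousAt (Q.isOpen.mem_nhds (B.mem ζ hζ))
  have hc1 : ∀ ζ ∈ R, ContinuousAt (fun ζ => φ (B.χ ζ)) ζ := fun ζ hζ =>
    ContinuousAt.comp (f := B.χ) (hφat ζ (hR_sub ζ hζ)) (hχat ζ (hR_sub ζ hζ))
  have hc2 : ∀ ζ ∈ R, ContinuousAt (fun ζ => B.χ (aff ζ)) ζ := fun ζ hζ =>
    ContinuousAt.comp (f := aff) (hχat (aff ζ) (hR_aff ζ hζ)) haffc.continuousAt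
  have hAo : IsOpen A := by
    rw [isOpen_iff_mem_nhds]
    intro ζ hζ
    obtain ⟨h2, h3⟩ := (hAm ζ).1 hζ
    filter_upwards [hRo.mem_nhds h2, eventually_eventually_nhds.2 h3] with ζ' h4 h5
    exact (hAm ζ').2 ⟨h4, h5⟩
  have hAR : R ⊆ A := by
    refine hRc.subset_of_closure_inter_subset hAo ⟨ζp, hpR, hpA⟩ ?_
    rintro ζ ⟨hζ, hζR⟩
    have h2 : φ (B.χ ζ) = B.χ (aff ζ) := by
      refine tendsto_nhds_unique_of_frequently_eq (hc1 ζ hζR) (hc2 ζ hζR) ?_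
      exact (mem_closure_iff_frequently.1 hζ).mono fun x hx => ((hAm x).1 hx).2.self_of_nhds
    obtain ⟨e', he', hel⟩ := box_local h B (hR_sub ζ hζR) (hR_aff ζ hζR) h2
    obtain ⟨ζ', hζ'A, hζ'd, hζ'e⟩ := ((mem_closure_iff_frequently.1 hζ).and_eventually hel).exists
    by_cases hζζ : ζ' = ζ
    · rw [← hζζ]
      exact hζ'A
    obtain ⟨hζ'R, hζ'n⟩ := (hAm ζ').1 hζ'A
    have h3 : B.χ (aff ζ') = B.χ (aff ζ + e' * str l (ζ' - ζ)) := by
      rw [← hζ'e]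
      exact hζ'n.self_of_nhds.symm
    have h4 := B.inj (hR_aff ζ' hζ'R) hζ'd h3
    rw [haffadd ζ ζ'] at h4
    have h5 : ε * str l (ζ' - ζ) = e' * str l (ζ' - ζ) := add_left_cancel h4
    have h6 : ε = e' := mul_right_cancel₀ (str_ne hL0 (sub_ne_zero.2 hζζ)) h5
    refine (hAm ζ).2 ⟨hζR, ?_⟩
    filter_upwards [hel] with ζ'' h7
    rw [h7.2, haffadd ζ ζ'', h6]
  -- the fixed point of `aff`
  have hd1 : l - 1 ≤ |1 - s * l| := by
    rcases hs with rfl | rfl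
    · rw [one_mul, abs_sub_comm]
      exact le_abs_self _
    · have := le_abs_self (1 - -1 * l)
      linarith
  have hd2 : 7 / 8 ≤ |1 - s * l⁻¹| := by
    rcases hs with rfl | rfl
    · have := le_abs_self (1 - 1 * l⁻¹)
      linarith
    · have := le_abs_self (1 - -1 * l⁻¹)
      linarith
  have hn1 : 1 - s * l ≠ 0 := by
    intro h2
    rw [h2, abs_zero] at hd1
    linarith
  have hn2 : 1 - s * l⁻¹ ≠ 0 := by
    intro h2
    rw [h2, abs_zero] at hd2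
    linarith
  have hx := div_mul_cancel₀ (ζq.re - ζp.re) hn1
  have hy := div_mul_cancel₀ (ζq.im - s * l⁻¹ * ζp.im) hn2
  have hxb : |(ζq.re - ζp.re) / (1 - s * l)| < ρ / (2 * l) := by
    have h2 : |ζq.re - ζp.re| ≤ |ζq.re| + |ζp.re| := abs_sub _ _
    rw [abs_div, div_lt_div_iff₀ (by linarith) (by positivity)]
    have h3 : |ζq.re - ζp.re| * (2 * l) ≤ ρ / 4 * (2 * l) :=
      mul_le_mul_of_nonneg_right (by linarith) (by positivity)
    have h4 : ρ * (l - 1) ≤ ρ * |1 - s * l| := mul_le_mul_of_nonneg_left hd1 hρ.le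
    nlinarith
  have hyb : |(ζq.im - s * l⁻¹ * ζp.im) / (1 - s * l⁻¹)| < ρ := by
    have h2 : |ζq.im - s * l⁻¹ * ζp.im| ≤ |ζq.im| + |s * l⁻¹ * ζp.im| := abs_sub _ _
    have h3 : |s * l⁻¹ * ζp.im| = l⁻¹ * |ζp.im| := by
      rw [abs_mul, abs_mul, hsabs, one_mul, abs_of_pos hLi0]
    have h4 : l⁻¹ * |ζp.im| ≤ 1 / 8 * |ζp.im| := mul_le_mul_of_nonneg_right hLi (abs_nonneg _)
    rw [abs_div, div_lt_iff₀ (by linarith)]
    have h5 : ρ * (7 / 8) ≤ ρ * |1 - s * l⁻¹| := mul_le_mul_of_nonneg_left hd2 hρ.le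
    linarith
  obtain ⟨hxb1, hxb2⟩ := abs_lt.1 hxb
  obtain ⟨hyb1, hyb2⟩ := abs_lt.1 hyb
  obtain ⟨ζ, hζre, hζim⟩ : ∃ ζ : ℂ, ζ.re = ζp.re + (ζq.re - ζp.re) / (1 - s * l) ∧
      ζ.im = (ζq.im - s * l⁻¹ * ζp.im) / (1 - s * l⁻¹) := ⟨⟨_, _⟩, rfl, rfl⟩
  have hζR : ζ ∈ R := by
    rw [hRm, hζre, hζim]
    exact ⟨⟨by linarith, by linarith⟩, hyb1, hyb2⟩
  have hfix : aff ζ = ζ := by
    rw [haff]
    apply Complex.ext
    · rw [Complex.add_re, hre, Complex.sub_re, hζre]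
      linear_combination -hx
    · rw [Complex.add_im, him, Complex.sub_im, hζim]
      linear_combination -hy
  have hζd := hR_sub ζ hζR
  have hζA := ((hAm ζ).1 (hAR hζR)).2
  have hwimg : B.χ ζ ∈ B.img := ⟨ζ, hζd, rfl⟩
  refine ⟨B.χ ζ, hwimg, ?_, ε, hε, ?_⟩
  · rw [hζA.self_of_nhds, hfix]
  · have hDw : B.D (B.χ ζ) = ζ := B.D_χ hζd
    have hDc : Tendsto B.D (𝓝 (B.χ ζ)) (𝓝 ζ) := by
      have h2 : ContinuousAt B.D (B.χ ζ) :=
        (B.D_holo.differentiableAt (B.isOpen_img.mem_nhds hwimg)).continuousAt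
      have h3 : Tendsto B.D (𝓝 (B.χ ζ)) (𝓝 (B.D (B.χ ζ))) := h2
      rwa [hDw] at h3
    filter_upwards [B.isOpen_img.mem_nhds hwimg, hDc.eventually hζA,
      hDc.eventually (hRo.mem_nhds hζR)] with z h2 h3 h4
    rw [B.χ_D h2] at h3
    rw [h3, B.D_χ (hR_aff _ h4), hDw, haffadd ζ (B.D z), hfix, add_sub_cancel_left]

end Pool.Agent.ANO2.Cone
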