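import Pool.Agent.ANO2.Iface
import Pool.Agent.ANO2.Geo2.SurfA

/-!
# ANO phase 2, Cone2: lifts of powers of a pseudo-Anosov surface map

`IsLift S n T`: `T = γ f ^ n` with `γ ∈ Γ` (`Iface`).  Port of `Pool/Agent/ANO/Cone/Lift.lean`.
-/

set_option autoImplicit false

open Set Filter Topology
open scoped UpperHalfPlane MatrixGroups

namespace Pool.Agent.ANO2.Cone

open Pool.Agent.ANO Geo2

variable {S : SurfaceMap} {n n' : ℕ} {T T' : ℍ → ℍ}

/-- `f ^ n γ = γ' f ^ n` -/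
theorem iter_smul (S : SurfaceMap) (n : ℕ) {γ : SL(2, ℝ)} (hγ : γ ∈ S.Γ) :
    ∃ γ' ∈ S.Γ, ∀ z : ℍ, S.f^[n] (γ • z) = γ' • (S.f^[n] z) := by
  induction n generalizing γ with
  | zero => exact ⟨γ, hγ, fun z => rfl⟩
  | succ n ih =>
    obtain ⟨γ₁, h₁, h⟩ := S.normalizes γ hγ
    obtain ⟨γ', h', hh⟩ := ih h₁
    refine ⟨γ', h', fun z => ?_⟩
    rw [Function.iterate_succ_apply, h, hh, Function.iterate_succ_apply]

/-- `γ' f ^ n = f ^ n γ` -/
theorem smul_iter (S : SurfaceMap) (n : ℕ) {γ' : SL(2, ℝ)} (hγ : γ' ∈ S.Γ) :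
    ∃ γ ∈ S.Γ, ∀ z : ℍ, S.f^[n] (γ • z) = γ' • (S.f^[n] z) := by
  induction n generalizing γ' with
  | zero => exact ⟨γ', hγ, fun z => rfl⟩
  | succ n ih =>
    obtain ⟨γ₁, h₁, h⟩ := S.normalizes' γ' hγ
    obtain ⟨γ, h', hh⟩ := ih h₁
    refine ⟨γ, h', fun z => ?_⟩
    rw [Function.iterate_succ_apply', hh, h, Function.iterate_succ_apply']

theorem isLift_iter (S : SurfaceMap) (n : ℕ) : IsLift S n S.f^[n] :=
  ⟨1, one_mem _, fun _ => (one_smul _ _).symm⟩

theorem isLift_comp (h : IsLift S n T) (h' : IsLift S n' T') : IsLift S (n + n') (T ∘ T') := by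
  obtain ⟨γ, hγ, h⟩ := h
  obtain ⟨γ', hγ', h'⟩ := h'
  obtain ⟨γ'', hγ'', h''⟩ := iter_smul S n hγ'
  refine ⟨γ * γ'', mul_mem hγ hγ'', fun z => ?_⟩
  rw [Function.comp_apply, h, h', h'', mul_smul, Function.iterate_add_apply]

theorem isLift_iterate (h : IsLift S n T) (j : ℕ) : IsLift S (n * j) T^[j] := by
  induction j with
  | zero => exact ⟨1, one_mem _, fun z => by simp⟩
  | succ j ih =>
    rw [Nat.mul_succ, Function.iterate_succ]
    exact isLift_comp ih h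

theorem isLift_smul (h : IsLift S n T) {γ : SL(2, ℝ)} (hγ : γ ∈ S.Γ) :
    IsLift S n fun z => γ • T z := by
  obtain ⟨γ', hγ', h⟩ := h
  exact ⟨γ * γ', mul_mem hγ hγ', fun z => by
    change γ • T z = _
    rw [h, mul_smul]⟩

private theorem iter_homeo (S : SurfaceMap) (n : ℕ) : ∃ e : ℍ ≃ₜ ℍ, ∀ z, e z = S.f^[n] z := by
  induction n with
  | zero => exact ⟨Homeomorph.refl _, fun z => rfl⟩
  | succ n ih =>
    obtain ⟨e, he⟩ := ih
    refine ⟨S.f.trans e, fun z => ?_⟩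
    rw [Homeomorph.trans_apply, he, Function.iterate_succ_apply]

/-- a lift is a homeomorphism -/
theorem isLift_homeo (h : IsLift S n T) : ∃ e : ℍ ≃ₜ ℍ, ∀ z, e z = T z := by
  obtain ⟨γ, hγ, h⟩ := h
  obtain ⟨e, he⟩ := iter_homeo S n
  refine ⟨e.trans (Homeomorph.smul γ), fun z => ?_⟩
  rw [Homeomorph.trans_apply, h, he]
  rfl

theorem isLift_continuous (h : IsLift S n T) : Continuous T := by
  obtain ⟨e, he⟩ := isLift_homeo h
  have : T = e := funext fun z => (he z).symm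
  rw [this]
  exact e.continuous

theorem isLift_injective (h : IsLift S n T) : Function.Injective T := by
  obtain ⟨e, he⟩ := isLift_homeo h
  have : T = e := funext fun z => (he z).symm
  rw [this]
  exact e.injective

/-- lifts are affine homeomorphisms -/
theorem isLift_aff {q : ℂ → ℂ} {l : ℝ} (h : IsPA S q l) (hT : IsLift S n T) :
    ∃ φ', Aff (qd h.quad) (lift T) φ' (l ^ n) := by
  obtain ⟨γ, hγ, hT⟩ := hT
  have : T = fun z => γ • S.f^[n] z := funext hT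
  rw [this]
  exact ⟨_, lift_aff h hγ⟩

theorem isLift_zero {q : ℂ → ℂ} {l : ℝ} (h : IsPA S q l) (hT : IsLift S n T) {z : ℍ}
    (hz : q z = 0) : q (T z) = 0 := by
  obtain ⟨φ', hφ⟩ := isLift_aff h hT
  have h1 := hφ.zero (mem_qd h.quad z) hz
  rw [lift_coe] at h1
  exact h1

theorem isLift_ne_zero {q : ℂ → ℂ} {l : ℝ} (h : IsPA S q l) (hT : IsLift S n T) {z : ℍ}
    (hz : q z ≠ 0) : q (T z) ≠ 0 := by
  obtain ⟨φ', hφ⟩ := isLift_aff h hT
  have h1 := hφ.ne_zero (mem_qd h.quad z) hz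
  rw [lift_coe] at h1
  exact h1

/-- the zeros in a compact set -/
theorem finite_zeros {S : ClosedSurface} {q : ℂ → ℂ} (h : IsQuadDiff S q) {K : Set ℍ}
    (hK : IsCompact K) : {z : ℍ | z ∈ K ∧ q z = 0}.Finite := by
  by_contra hinf
  have hinf' : {z : ℍ | z ∈ K ∧ q z = 0}.Infinite := hinf
  obtain ⟨x, hx, hacc⟩ := hinf'.exists_accPt_of_subset_isCompact hK fun z hz => hz.1
  have h1 := isolated (qd h) (mem_qd h x)
  have h2 : ∀ᶠ z : ℍ in 𝓝[≠] x, q z ≠ 0 := by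
    have h0 : Tendsto (fun z : ℍ => (z : ℂ)) (𝓝[≠] x) (𝓝[≠] (x : ℂ)) := by
      refine tendsto_nhdsWithin_iff.2 ⟨?_, ?_⟩
      · exact (UpperHalfPlane.continuous_coe.tendsto x).mono_left nhdsWithin_le_nhds
      · filter_upwards [self_mem_nhdsWithin] with z hz h
        exact hz (UpperHalfPlane.ext h)
    exact h0.eventually h1
  have h3 := accPt_iff_frequently.1 hacc
  rw [eventually_nhdsWithin_iff] at h2
  obtain ⟨y, ⟨hy1, hy2⟩, hy3⟩ := (h3.and_eventually h2).exists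
  exact hy3 hy1 hy2.2

/-- the orbit of a zero meets only finitely many classes of zeros -/
theorem exists_fixing_lift {q : ℂ → ℂ} {l : ℝ} (h : IsPA S q l) {s : ℍ} (hs : q s = 0) :
    ∃ n, 0 < n ∧ ∃ T, IsLift S n T ∧ T s = s := by
  obtain ⟨K, hK, hKc⟩ := S.cocompact
  choose g hg hgK using fun i : ℕ => hKc (S.f^[i] s)
  have hfin := finite_zeros h.quad hK
  have hmem : ∀ i : ℕ, g i • (S.f^[i] s) ∈ {z : ℍ | z ∈ K ∧ q z = 0} := by
    intro i
    have hl : IsLift S i fun z => g i • (S.f^[i] z) := ⟨g i, hg i, fun z => rfl⟩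
    exact ⟨hgK i, isLift_zero h hl hs⟩
  have key : ∃ i j : ℕ, i < j ∧ g i • (S.f^[i] s) = g j • (S.f^[j] s) := by
    have := hfin.to_subtype
    obtain ⟨i, j, hij, he⟩ := Finite.exists_ne_map_eq_of_infinite
      (fun i : ℕ => (⟨g i • (S.f^[i] s), hmem i⟩ : {z : ℍ | z ∈ K ∧ q z = 0}))
    have he' := congrArg Subtype.val he
    rcases lt_or_gt_of_ne hij with h | h
    · exact ⟨i, j, h, he'⟩
    · exact ⟨j, i, h, he'.symm⟩
  obtain ⟨i, j, hij, he⟩ := key
  obtain ⟨δ, hδ, hh⟩ := smul_iter S i (mul_mem (inv_mem (hg i)) (hg j))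
  refine ⟨j - i, by omega, fun z => δ • (S.f^[j - i] z), ⟨δ, hδ, fun z => rfl⟩, ?_⟩
  have hinj : Function.Injective (S.f^[i]) := S.f.injective.iterate i
  apply hinj
  rw [hh, ← Function.iterate_add_apply, mul_smul]
  have : i + (j - i) = j := by omega
  rw [this, ← he, inv_smul_smul]

end Pool.Agent.ANO2.Cone
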