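import Pool.Agent.ANO2.Cone.AreaB
import Pool.Agent.ANO2.Cone.Lift

/-!
# ANO phase 2, Cone2: recurrence by an area argument (A9)

The sets `R_j = f ^ (n₀ j) R` have the same area `> 0`.  If no lift of `f ^ n`, `n₀ ∣ n`, moves a
point of `R` into `R`, then the sets `g R_j ∩ K`, `g ∈ Γ` (as a map), are disjoint, and the area of
`R_j` is at most the sum over `g` of their areas; so `N area R ≤ area K` for all `N`.
-/

set_option autoImplicit false

open Set Filter Topology MeasureTheory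
open scoped UpperHalfPlane MatrixGroups

namespace Pool.Agent.ANO2.Cone

open Pool.Agent.ANO Geo2

variable {S : SurfaceMap} {q : ℂ → ℂ} {l : ℝ}

/-- The area of a subset of `ℍ`. -/
noncomputable def ar (h : IsPA S q l) (A : Set ℍ) : ENNReal :=
  area (qd h.quad) ((fun z : ℍ => (z : ℂ)) '' A)

private lemma isCompact_coe {A : Set ℍ} (hA : IsCompact A) :
    IsCompact ((fun z : ℍ => (z : ℂ)) '' A) := hA.image UpperHalfPlane.continuous_coe

private lemma ar_mono (h : IsPA S q l) {A B : Set ℍ} (hAB : A ⊆ B) : ar h A ≤ ar h B :=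
  measure_mono (image_mono hAB)

private lemma ar_lift (h : IsPA S q l) {n : ℕ} {T : ℍ → ℍ} (hT : IsLift S n T) {A : Set ℍ}
    (hA : IsCompact A) : ar h (T '' A) = ar h A := by
  obtain ⟨φ', hφ⟩ := isLift_aff h hT
  have h1 : (fun z : ℍ => (z : ℂ)) '' (T '' A) = lift T '' ((fun z : ℍ => (z : ℂ)) '' A) := by
    rw [image_image, image_image]
    exact image_congr fun z _ => (lift_coe T z).symm
  unfold ar
  rw [h1]
  refine area_image hφ (isCompact_coe hA).isClosed.measurableSet ?_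
  rintro _ ⟨z, -, rfl⟩
  exact mem_qd h.quad z

private lemma ar_smul (h : IsPA S q l) {γ : SL(2, ℝ)} (hγ : γ ∈ S.Γ) {A : Set ℍ}
    (hA : IsCompact A) : ar h ((fun z : ℍ => γ • z) '' A) = ar h A :=
  ar_lift h (n := 0) (T := fun z => γ • z) ⟨γ, hγ, fun _ => rfl⟩ hA

private lemma sum_ar_le (h : IsPA S q l) {K : Set ℍ} {ι : Type} (I : Finset ι)
    (Q : ι → Set ℍ) (hQ : ∀ i ∈ I, IsCompact (Q i)) (hQK : ∀ i ∈ I, Q i ⊆ K)
    (hd : ∀ i ∈ I, ∀ j ∈ I, i ≠ j → Disjoint (Q i) (Q j)) :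
    ∑ i ∈ I, ar h (Q i) ≤ ar h K := by
  have hinj : Function.Injective fun z : ℍ => (z : ℂ) := fun z w h => UpperHalfPlane.ext h
  have h1 : area (qd h.quad) (⋃ i ∈ I, (fun z : ℍ => (z : ℂ)) '' Q i) =
      ∑ i ∈ I, ar h (Q i) := by
    refine measure_biUnion_finset ?_ fun i hi => (isCompact_coe (hQ i hi)).isClosed.measurableSet
    intro i hi j hj hij
    exact (disjoint_image_iff hinj).2 (hd i hi j hj hij)
  rw [← h1]
  refine measure_mono (iUnion₂_subset fun i hi => image_mono (hQK i hi))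

private lemma rel_of_eq (S : SurfaceMap) {m m' : ℕ} (hm : m ≤ m')
    {γ γ' : SL(2, ℝ)} (hγ : γ ∈ S.Γ) (hγ' : γ' ∈ S.Γ) {p p' : ℍ}
    (h : γ • S.f^[m] p = γ' • S.f^[m'] p') : ∃ δ ∈ S.Γ, p = δ • S.f^[m' - m] p' ∧
      ∀ z : ℍ, S.f^[m] (δ • z) = (γ⁻¹ * γ') • S.f^[m] z := by
  obtain ⟨δ, hδ, h1⟩ := smul_iter S m (S.Γ.mul_mem (S.Γ.inv_mem hγ) hγ')
  refine ⟨δ, hδ, ?_, h1⟩
  apply (S.f.injective.iterate m)
  rw [h1, ← Function.iterate_add_apply, Nat.add_sub_cancel' hm, mul_smul, ← h, inv_smul_smul]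

theorem exists_return (h : IsPA S q l) {R : Set ℍ} (hR : IsCompact R) (hvol : ar h R ≠ 0)
    (hfree : ∀ γ ∈ S.Γ, (∃ z ∈ R, γ • z ∈ R) → ∀ w : ℍ, γ • w = w) {n₀ : ℕ} (hn : 0 < n₀) :
    ∃ n, 0 < n ∧ n₀ ∣ n ∧ ∃ T, IsLift S n T ∧ ∃ p ∈ R, T p ∈ R := by
  classical
  by_contra hcon
  push Not at hcon
  obtain ⟨K, hK, hKc⟩ := S.cocompact
  -- the compact sets `R_j`
  have hRj : ∀ j, IsCompact (S.f^[n₀ * j] '' R) := fun j =>
    hR.image (isLift_continuous (isLift_iter S (n₀ * j)))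
  have hfin := fun j => S.proper _ ((hRj j).union hK)
  obtain ⟨G, hG⟩ : ∃ G : ℕ → Finset (ℍ → ℍ), ∀ j, ∀ g, g ∈ G j ↔
      ∃ γ, (γ ∈ S.Γ ∧ ∃ z ∈ S.f^[n₀ * j] '' R ∪ K, γ • z ∈ S.f^[n₀ * j] '' R ∪ K) ∧
        (fun z : ℍ => γ • z) = g := by
    refine ⟨fun j => (hfin j).toFinset.image fun γ z => γ • z, fun j g => ?_⟩
    rw [Finset.mem_image]
    constructor
    · rintro ⟨γ, hγ, rfl⟩
      exact ⟨γ, (hfin j).mem_toFinset.1 hγ, rfl⟩
    · rintro ⟨γ, hγ, rfl⟩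
      exact ⟨γ, (hfin j).mem_toFinset.2 hγ, rfl⟩
  -- the sets `Q`
  obtain ⟨Q, hQ⟩ : ∃ Q : (Σ _ : ℕ, ℍ → ℍ) → Set ℍ, Q = fun i =>
      (i.2 '' (S.f^[n₀ * i.1] '' R)) ∩ K := ⟨_, rfl⟩
  have key : ∀ N : ℕ, (N : ENNReal) * ar h R ≤ ar h K := by
    intro N
    have h1 := sum_ar_le h (K := K) ((Finset.range N).sigma fun j => G j) Q ?_ ?_ ?_
    · refine le_trans ?_ h1
      rw [Finset.sum_sigma]
      have h2 : (N : ENNReal) * ar h R = ∑ _j ∈ Finset.range N, ar h R := by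
        rw [Finset.sum_const, Finset.card_range, nsmul_eq_mul]
      rw [h2]
      refine Finset.sum_le_sum fun j _ => ?_
      rw [← ar_lift h (isLift_iter S (n₀ * j)) hR]
      have h3 : (fun z : ℍ => (z : ℂ)) '' (S.f^[n₀ * j] '' R) ⊆ ⋃ g ∈ G j,
          (fun z : ℍ => (z : ℂ)) '' ((S.f^[n₀ * j] '' R) ∩ g ⁻¹' K) := by
        rintro _ ⟨x, hx, rfl⟩
        obtain ⟨γ, hγ, hγx⟩ := hKc x
        refine mem_iUnion₂.2 ⟨fun z => γ • z, (hG j _).2 ⟨γ, ⟨hγ, x, Or.inl hx, Or.inr hγx⟩,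
          rfl⟩, x, ⟨hx, hγx⟩, rfl⟩
      refine (measure_mono h3).trans ((measure_biUnion_finset_le _ _).trans
        (Finset.sum_le_sum fun g hg => ?_))
      obtain ⟨γ, ⟨hγ, -⟩, rfl⟩ := (hG j g).1 hg
      have h4 : (fun z : ℍ => γ • z) '' ((S.f^[n₀ * j] '' R) ∩ (fun z : ℍ => γ • z) ⁻¹' K) =
          Q ⟨j, fun z => γ • z⟩ := by
        rw [hQ, image_inter_preimage]
      have h5 : IsCompact ((S.f^[n₀ * j] '' R) ∩ (fun z : ℍ => γ • z) ⁻¹' K) :=
        (hRj j).inter_right (hK.isClosed.preimage (continuous_const_smul γ))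
      rw [← h4, ar_smul h hγ h5]
      rfl
    · rintro ⟨j, g⟩ hi
      rw [Finset.mem_sigma] at hi
      obtain ⟨γ, -, hγ⟩ := (hG j g).1 hi.2
      have hgc : Continuous g := by
        rw [← hγ]
        exact continuous_const_smul γ
      rw [hQ]
      exact ((hRj j).image hgc).inter_right hK.isClosed
    · intro i _
      rw [hQ]
      exact inter_subset_right
    · -- disjointness
      have haux : ∀ j j' : ℕ, j ≤ j' → ∀ g g' : ℍ → ℍ, g ∈ G j → g' ∈ G j' → ∀ z,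
          z ∈ Q ⟨j, g⟩ → z ∈ Q ⟨j', g'⟩ → j = j' ∧ g = g' := by
        intro j j' hjj g g' hg hg' z hz hz'
        obtain ⟨γ, ⟨hγ, -⟩, rfl⟩ := (hG j g).1 hg
        obtain ⟨γ', ⟨hγ', -⟩, rfl⟩ := (hG j' g').1 hg'
        rw [hQ] at hz hz'
        obtain ⟨⟨_, ⟨p, hp, rfl⟩, hz1⟩, -⟩ := hz
        obtain ⟨⟨_, ⟨p', hp', rfl⟩, hz2⟩, -⟩ := hz'
        have he : γ • S.f^[n₀ * j] p = γ' • S.f^[n₀ * j'] p' := hz1.trans hz2.symm
        obtain ⟨δ, hδ, h5, h6⟩ := rel_of_eq S (Nat.mul_le_mul_left n₀ hjj) hγ hγ' he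
        rw [← Nat.mul_sub] at h5
        have hjeq : j = j' := by
          by_contra hne
          have hlt : 0 < j' - j := by omega
          refine hcon (n₀ * (j' - j)) (Nat.mul_pos hn hlt) (dvd_mul_right _ _)
            (fun z => δ • S.f^[n₀ * (j' - j)] z) ⟨δ, hδ, fun z => rfl⟩ p' hp' ?_
          show δ • S.f^[n₀ * (j' - j)] p' ∈ R
          rw [← h5]
          exact hp
        refine ⟨hjeq, ?_⟩
        subst hjeq
        rw [Nat.sub_self, mul_zero, Function.iterate_zero_apply] at h5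
        have h7 := hfree δ hδ ⟨p', hp', h5 ▸ hp⟩
        funext x
        obtain ⟨y, rfl⟩ := (S.f.surjective.iterate (n₀ * j)) x
        have h8 := h6 y
        rw [h7, mul_smul] at h8
        show γ • S.f^[n₀ * j] y = γ' • S.f^[n₀ * j] y
        rw [eq_inv_smul_iff] at h8
        exact h8
      rintro ⟨j, g⟩ hi ⟨j', g'⟩ hi' hne
      rw [Finset.mem_sigma] at hi hi'
      rw [disjoint_left]
      intro z hz hz'
      apply hne
      rcases le_total j j' with h | h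
      · obtain ⟨h1, h2⟩ := haux j j' h g g' hi.2 hi'.2 z hz hz'
        rw [h1, h2]
      · obtain ⟨h1, h2⟩ := haux j' j h g' g hi'.2 hi.2 z hz' hz
        rw [h1, h2]
  have hfinK : ar h K ≠ ⊤ := by
    refine area_compact (isCompact_coe hK) ?_
    rintro _ ⟨z, -, rfl⟩
    exact mem_qd h.quad z
  obtain ⟨N, hN⟩ := ENNReal.exists_nat_mul_gt hvol hfinK
  exact absurd (key N) (not_le.2 hN)

end Pool.Agent.ANO2.Cone
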