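import Pool.Agent.ANO2.Cone.BoxB
import Pool.Agent.ANO2.Cone.Return

/-!
# ANO phase 2, Cone2: density of the regular periodic points (A9)

`U` contains a point `z₀` which is not a zero of `q`.  Take a neighbourhood of `z₀` in `U` as in
`box_free`, a flow box `B` with the rectangle `(-ρ, ρ) × (-ρ, ρ)` inside it, `R` the image of the
closed square of half side `ρ / 16`, and `n₀` with `l ^ n₀ > 8`.  `exists_return` gives a lift `T`
of `f ^ n` and `p`, `T p ∈ R`, `n₀ ∣ n`, so `l ^ n > 8`; `box_fixed` gives a fixed point of `T` in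
`B.img`.
-/

set_option autoImplicit false

open Set Filter Topology
open scoped UpperHalfPlane MatrixGroups

namespace Pool.Agent.ANO2.Cone

open Pool.Agent.ANO Geo2

variable {S : SurfaceMap} {q : ℂ → ℂ} {l : ℝ}

/-- small sets are disjoint from their translates -/
theorem box_free (S : ClosedSurface) (z : ℍ) : ∃ V ∈ 𝓝 z, ∀ γ ∈ S.Γ,
    (∃ w ∈ V, γ • w ∈ V) → ∀ w : ℍ, γ • w = w := by
  obtain ⟨K, hK, hKz⟩ := exists_compact_mem_nhds z
  have hfin := S.proper K hK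
  have hW : ∀ γ : SL(2, ℝ), ∃ W ∈ 𝓝 z, γ ∈ S.Γ →
      (∃ w ∈ W, γ • w ∈ W) → ∀ w : ℍ, γ • w = w := by
    intro γ
    by_cases hγ : γ • z = z
    · exact ⟨univ, univ_mem, fun hm _ => S.free γ hm z hγ⟩
    · obtain ⟨A, B, hA, hB, hzA, hzB, hAB⟩ := t2_separation hγ
      have hc : Continuous fun w : ℍ => γ • w := continuous_const_smul γ
      refine ⟨B ∩ (fun w : ℍ => γ • w) ⁻¹' A,
        inter_mem (hB.mem_nhds hzB) (hc.continuousAt (hA.mem_nhds hzA)), fun _ hw => ?_⟩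
      obtain ⟨w, hw1, hw2⟩ := hw
      exact absurd hw2.1 (disjoint_left.1 hAB hw1.2)
  choose W hWz hWp using hW
  refine ⟨K ∩ ⋂ γ ∈ {γ : SL(2, ℝ) | γ ∈ S.Γ ∧ ∃ z ∈ K, γ • z ∈ K}, W γ,
    inter_mem hKz ((Filter.biInter_mem hfin).2 fun γ _ => hWz γ), fun γ hγ hw => ?_⟩
  obtain ⟨w, hw1, hw2⟩ := hw
  have hmem : γ ∈ {γ : SL(2, ℝ) | γ ∈ S.Γ ∧ ∃ z ∈ K, γ • z ∈ K} :=
    ⟨hγ, w, hw1.1, hw2.1⟩
  exact hWp γ hγ ⟨w, mem_iInter₂.1 hw1.2 γ hmem, mem_iInter₂.1 hw2.2 γ hmem⟩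

private theorem stretch_smul (l : ℝ) {ε : ℂ} (hε : ε = 1 ∨ ε = -1) (z : ℂ) :
    stretch l (ε * z) = ε * stretch l z := by
  rcases hε with rfl | rfl <;> apply Complex.ext <;> simp [stretch]

private theorem stretch_stretch (l l' : ℝ) (z : ℂ) :
    stretch l (stretch l' z) = stretch (l * l') z := by
  apply Complex.ext <;> simp [stretch, mul_assoc, mul_left_comm]

private theorem sign_pow {ε : ℂ} (h : ε = 1 ∨ ε = -1) (j : ℕ) : ε ^ j = 1 ∨ ε ^ j = -1 := by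
  rcases h with rfl | rfl
  · exact Or.inl (one_pow j)
  · exact neg_one_pow_eq_or ℂ j

/-- the powers of a map at a regular fixed point -/
theorem regFixed_iterate {w : ℍ} {H : ℍ → ℍ} (h : RegFixed w H) {j : ℕ} (hj : 0 < j) :
    RegFixed w H^[j] := by
  obtain ⟨hw, hc, D, L, ε, hL, hε, hD, hD0, hev⟩ := h
  have hfix : ∀ j : ℕ, H^[j] w = w := fun j => Function.iterate_fixed hw j
  have key : ∀ j : ℕ, ∀ᶠ z : ℍ in 𝓝 w,
      D (H^[j] z) - D w = ε ^ j * stretch (L ^ j) (D z - D w) := by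
    intro j
    induction j with
    | zero =>
      refine Eventually.of_forall fun z => ?_
      apply Complex.ext <;> simp [stretch]
    | succ j ih =>
      have h1 : Tendsto H^[j] (𝓝 w) (𝓝 w) := by
        have h2 := (hc.iterate j).tendsto w
        rwa [hfix j] at h2
      filter_upwards [ih, h1.eventually hev] with z h2 h3
      rw [Function.iterate_succ_apply', h3, h2, stretch_smul L (sign_pow hε j), stretch_stretch,
        pow_succ', pow_succ']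
      ring
  exact ⟨hfix j, hc.iterate j, D, L ^ j, ε ^ j, one_lt_pow₀ hL hj.ne', sign_pow hε j, hD, hD0,
    key j⟩

/-- the closed square -/
private def cSq (ρ : ℝ) : Set ℂ := {ζ | |ζ.re| ≤ ρ ∧ |ζ.im| ≤ ρ}

private theorem isCompact_cSq (ρ : ℝ) : IsCompact (cSq ρ) := by
  have h1 : cSq ρ = Icc (-ρ) ρ ×ℂ Icc (-ρ) ρ := by
    ext ζ
    simp only [cSq, mem_ofPred_eq, abs_le, Complex.mem_reProdIm, mem_Icc]
  rw [h1]
  exact isCompact_Icc.reProdIm isCompact_Icc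

private theorem isOpen_Sq (ρ : ℝ) : IsOpen (Sq ρ) := by
  have h1 : Sq ρ = {ζ : ℂ | |ζ.re| < ρ} ∩ {ζ : ℂ | |ζ.im| < ρ} := rfl
  rw [h1]
  exact (isOpen_lt (continuous_abs.comp Complex.continuous_re) continuous_const).inter
    (isOpen_lt (continuous_abs.comp Complex.continuous_im) continuous_const)

private theorem Sq_eq (ρ : ℝ) : Sq ρ = Ioo (-ρ) ρ ×ℂ Ioo (-ρ) ρ := by
  ext ζ
  simp only [Sq, mem_ofPred_eq, abs_lt, Complex.mem_reProdIm, mem_Ioo]

/-- a regular point in an open set -/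
theorem exists_ne_zero {S : ClosedSurface} (h : IsQuadDiff S q) {U : Set ℍ} (hU : IsOpen U)
    (hne : U.Nonempty) : ∃ z ∈ U, q z ≠ 0 := by
  obtain ⟨v, hv⟩ := hne
  have h0 : Tendsto (fun z : ℍ => (z : ℂ)) (𝓝[≠] v) (𝓝[≠] (v : ℂ)) := by
    refine tendsto_nhdsWithin_iff.2 ⟨?_, ?_⟩
    · exact (UpperHalfPlane.continuous_coe.tendsto v).mono_left nhdsWithin_le_nhds
    · filter_upwards [self_mem_nhdsWithin] with z hz h
      exact hz (UpperHalfPlane.ext h)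
  have h1 := (h0.eventually (isolated (qd h) (mem_qd h v))).and
    (mem_nhdsWithin_of_mem_nhds (hU.mem_nhds hv))
  obtain ⟨z, h2, h3⟩ := h1.exists
  exact ⟨z, h3, h2⟩

/-- The regular periodic points are dense. -/
theorem dense_regular (h : IsPA S q l) {U : Set ℍ} (hU : IsOpen U) (hne : U.Nonempty) :
    ∃ z ∈ U, q z ≠ 0 ∧ ∃ (m : ℕ) (H : ℍ → ℍ), 0 < m ∧ IsLift S m H ∧
      ∀ j : ℕ, 0 < j → RegFixed z H^[j] := by
  obtain ⟨z₀, hz₀U, hz₀⟩ := exists_ne_zero h.quad hU hne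
  obtain ⟨W, hW, hfree⟩ := box_free S.toClosedSurface z₀
  obtain ⟨v, hv⟩ := IsAlgClosed.exists_pow_nat_eq (q z₀)⁻¹ (n := 2) (by norm_num)
  have hv' : (qd h.quad).q z₀ * v ^ 2 = 1 := by
    rw [hv]
    exact mul_inv_cancel₀ hz₀
  have hWU : (fun z : ℍ => (z : ℂ)) '' (W ∩ U) ∈ 𝓝 (z₀ : ℂ) :=
    UpperHalfPlane.isOpenEmbedding_coe.image_mem_nhds.2 (inter_mem hW (hU.mem_nhds hz₀U))
  obtain ⟨ρ, hρ, B, ha, hb, hc, hd, -, -, hBW⟩ :=
    box_exists (qd h.quad) (mem_qd h.quad z₀) hv' hWU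
  have hdom : B.dom = Sq ρ := by
    rw [Sq_eq]
    unfold Box.dom
    rw [ha, hb, hc, hd]
  have hsub : cSq (ρ / 16) ⊆ Sq (ρ / 8) := by
    intro ζ hζ
    exact ⟨hζ.1.trans_lt (by linarith), hζ.2.trans_lt (by linarith)⟩
  have hsub8 : Sq (ρ / 8) ⊆ B.dom := by
    rw [hdom]
    intro ζ hζ
    exact ⟨hζ.1.trans (by linarith), hζ.2.trans (by linarith)⟩
  have hsub16 : Sq (ρ / 16) ⊆ cSq (ρ / 16) := fun ζ hζ => ⟨hζ.1.le, hζ.2.le⟩
  -- the box as a subset of `ℍ`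
  obtain ⟨R, hR⟩ : ∃ R : Set ℍ, R = (fun z : ℍ => (z : ℂ)) ⁻¹' (B.χ '' cSq (ρ / 16)) := ⟨_, rfl⟩
  have himg : (fun z : ℍ => (z : ℂ)) '' R = B.χ '' cSq (ρ / 16) := by
    rw [hR, image_preimage_eq_iff]
    rintro _ ⟨ζ, hζ, rfl⟩
    exact ⟨⟨B.χ ζ, B.mem ζ (hsub8 (hsub hζ))⟩, rfl⟩
  have hRc : IsCompact R := by
    rw [UpperHalfPlane.isEmbedding_coe.isCompact_iff, himg]
    exact (isCompact_cSq _).image_of_continuousOn
      (B.holo.continuousOn.mono (hsub.trans hsub8))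
  have hvol : ar h R ≠ 0 := by
    have hlt : -(ρ / 16) < ρ / 16 := by linarith
    have h1 : Ioo (-(ρ / 16)) (ρ / 16) ×ℂ Ioo (-(ρ / 16)) (ρ / 16) ⊆ B.dom := by
      rw [← Sq_eq]
      exact hsub16.trans (hsub.trans hsub8)
    have h2 := (B.restrict hlt hlt h1).isOpen_img
    have h3 : (B.restrict hlt hlt h1).img = B.χ '' Sq (ρ / 16) := by
      rw [Sq_eq]
      rfl
    rw [h3] at h2
    have h4 : area (qd h.quad) (B.χ '' Sq (ρ / 16)) ≠ 0 := by
      refine area_ne_zero h2 ?_ ⟨B.χ 0, 0, ?_, rfl⟩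
      · rintro _ ⟨ζ, hζ, rfl⟩
        exact B.mem ζ (hsub8 (hsub (hsub16 hζ)))
      · constructor
        · rw [Complex.zero_re, abs_zero]
          linarith
        · rw [Complex.zero_im, abs_zero]
          linarith
    intro h5
    apply h4
    refine le_antisymm ?_ zero_le
    rw [← h5]
    unfold ar
    rw [himg]
    exact MeasureTheory.measure_mono (image_mono hsub16)
  have hRW : ∀ z ∈ R, z ∈ W := by
    intro z hz
    rw [hR] at hz
    obtain ⟨ζ, hζ, h1⟩ := hz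
    obtain ⟨w, hw, h2⟩ := hBW (mem_image_of_mem B.χ (hsub8 (hsub hζ)))
    have h3 : w = z := UpperHalfPlane.ext (h2.trans h1)
    rw [← h3]
    exact hw.1
  have hfree' : ∀ γ ∈ S.Γ, (∃ z ∈ R, γ • z ∈ R) → ∀ w : ℍ, γ • w = w := by
    rintro γ hγ ⟨z, hz, hz'⟩
    exact hfree γ hγ ⟨z, hRW z hz, hRW _ hz'⟩
  obtain ⟨n₀, hn₀⟩ := pow_unbounded_of_one_lt (8 : ℝ) h.one_lt
  have hn0 : 0 < n₀ := by
    rcases Nat.eq_zero_or_pos n₀ with rfl | h
    · norm_num at hn₀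
    · exact h
  obtain ⟨n, hn, hdvd, T, hT, p, hp, hTp⟩ := exists_return h hRc hvol hfree' hn0
  have hL : 8 < l ^ n :=
    hn₀.trans_le (pow_le_pow_right₀ h.one_lt.le (Nat.le_of_dvd hn hdvd))
  obtain ⟨φ', hφ⟩ := isLift_aff h hT
  rw [hR] at hp hTp
  obtain ⟨ζp, hζp, hp1⟩ := hp
  obtain ⟨ζq, hζq, hq1⟩ := hTp
  have hpq : lift T (B.χ ζp) = B.χ ζq := by
    rw [hp1]
    change lift T (p : ℂ) = _
    rw [lift_coe, hq1]
  obtain ⟨w, hw, hfix, e, he, hev⟩ := box_fixed hφ hL B hρ ha hb hc hd (hsub hζp) (hsub hζq) hpq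
  obtain ⟨w', hw', rfl⟩ := hBW hw
  have hw1 : T w' = w' := by
    apply UpperHalfPlane.ext
    rw [← lift_coe]
    exact hfix
  have hq : q w' ≠ 0 := by
    intro h0
    have h1 := B.eq _ (B.D_mem hw)
    rw [B.χ_D hw] at h1
    change q w' * _ = 1 at h1
    rw [h0, zero_mul] at h1
    exact zero_ne_one h1
  have hreg : RegFixed w' T := by
    refine ⟨hw1, isLift_continuous hT, B.D, l ^ n, e, by linarith, he,
      B.D_holo.analyticAt (B.isOpen_img.mem_nhds hw), ?_, ?_⟩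
    · intro h0
      have h1 := B.deriv_D hw
      rw [h0] at h1
      apply hq
      rw [show q w' = (qd h.quad).q w' from rfl, ← h1]
      norm_num
    · have h1 := (UpperHalfPlane.continuous_coe.tendsto w').eventually hev
      filter_upwards [h1] with z hz
      rw [lift_coe] at hz
      exact hz
  exact ⟨w', hw'.2, hq, n, T, hn, hT, fun j hj => regFixed_iterate hreg hj⟩

end Pool.Agent.ANO2.Cone
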