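import Pool.Agent.ANO2.Iface

/-!
# ANO phase 2, Cone2: the rotation at an `n`-prong point, algebra

For `w = v²`: `S2 L w = (stretch L v)²`, `r2 L w = stretch L v / v`, `qr n L w = (r2 L w)^(2 / n)`
(principal value).

* `r2_re`: the real part of `r2` is positive, so `|arg (qr n L w)| < π / n`.
* `qr_pow`: `qr n L w ^ n = S2 L w / w`.
* `qr_mul`: the logarithm of the product is the sum of the logarithms.
-/

set_option autoImplicit false

open Set Filter Topology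
open scoped UpperHalfPlane

namespace Pool.Agent.ANO2.Cone

open Pool.Agent.ANO

/-- `(stretch L v)²` as a function of `w = v²` -/
noncomputable def S2 (L : ℝ) (w : ℂ) : ℂ :=
  ⟨L ^ 2 * ((‖w‖ + w.re) / 2) - L⁻¹ ^ 2 * ((‖w‖ - w.re) / 2), w.im⟩

/-- `stretch L v / v` as a function of `w = v²` -/
noncomputable def r2 (L : ℝ) (w : ℂ) : ℂ :=
  ⟨(L * ((‖w‖ + w.re) / 2) + L⁻¹ * ((‖w‖ - w.re) / 2)) / ‖w‖, (L⁻¹ - L) * w.im / 2 / ‖w‖⟩

/-- `(stretch L v / v)^(2 / n)` as a function of `w = v²` -/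
noncomputable def qr (n : ℕ) (L : ℝ) (w : ℂ) : ℂ := Complex.exp (2 * Complex.log (r2 L w) / n)

private theorem norm_sq' (v : ℂ) : ‖v ^ 2‖ = v.re ^ 2 + v.im ^ 2 := by
  rw [norm_pow, ← Complex.normSq_eq_norm_sq, Complex.normSq_apply]
  ring

private theorem sq_re' (v : ℂ) : (v ^ 2).re = v.re ^ 2 - v.im ^ 2 := by
  rw [pow_two, Complex.mul_re]
  ring

private theorem sq_im' (v : ℂ) : (v ^ 2).im = 2 * (v.re * v.im) := by
  rw [pow_two, Complex.mul_im]
  ring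

theorem S2_sq {L : ℝ} (hL : 0 < L) (v : ℂ) : S2 L (v ^ 2) = stretch L v ^ 2 := by
  have h0 : L ≠ 0 := hL.ne'
  apply Complex.ext
  · change L ^ 2 * ((‖v ^ 2‖ + (v ^ 2).re) / 2) - L⁻¹ ^ 2 * ((‖v ^ 2‖ - (v ^ 2).re) / 2) = _
    rw [norm_sq', sq_re', sq_re']
    simp only [stretch]
    ring
  · change (v ^ 2).im = _
    rw [sq_im', sq_im']
    simp only [stretch]
    field_simp

theorem r2_sq {L : ℝ} (hL : 0 < L) (v : ℂ) (hv : v ≠ 0) :
    r2 L (v ^ 2) = stretch L v / v := by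
  have h0 : L ≠ 0 := hL.ne'
  have hn : 0 < v.re ^ 2 + v.im ^ 2 := by
    have := Complex.normSq_pos.2 hv
    rw [Complex.normSq_apply] at this
    nlinarith
  rw [eq_div_iff hv]
  apply Complex.ext
  · rw [Complex.mul_re]
    simp only [r2, stretch]
    rw [norm_sq', sq_re', sq_im']
    field_simp
    ring
  · rw [Complex.mul_im]
    simp only [r2, stretch]
    rw [norm_sq', sq_re', sq_im']
    field_simp
    ring

theorem exists_sqrt (w : ℂ) : ∃ v : ℂ, v ^ 2 = w := IsAlgClosed.exists_pow_nat_eq w (by norm_num)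

private theorem sq_ne {v w : ℂ} (h : v ^ 2 = w) (hw : w ≠ 0) : v ≠ 0 := by
  rintro rfl
  exact hw (by rw [← h]; norm_num)

private theorem stretch_ne' {L : ℝ} (hL : 0 < L) {w : ℂ} (hw : w ≠ 0) : stretch L w ≠ 0 := by
  intro h
  apply hw
  have h1 := congrArg Complex.re h
  have h2 := congrArg Complex.im h
  simp only [stretch, Complex.zero_re, Complex.zero_im] at h1 h2
  have hi : L⁻¹ ≠ 0 := inv_ne_zero hL.ne'
  exact Complex.ext ((mul_eq_zero.1 h1).resolve_left hL.ne') ((mul_eq_zero.1 h2).resolve_left hi)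

private theorem stretch_stretch' (l l' : ℝ) (z : ℂ) :
    stretch l (stretch l' z) = stretch (l * l') z := by
  apply Complex.ext <;> simp [stretch, mul_assoc, mul_left_comm]

theorem S2_zero (L : ℝ) : S2 L 0 = 0 := by
  apply Complex.ext <;> simp [S2]

theorem S2_ne {L : ℝ} (hL : 0 < L) {w : ℂ} (hw : w ≠ 0) : S2 L w ≠ 0 := by
  obtain ⟨v, rfl⟩ := exists_sqrt w
  rw [S2_sq hL]
  exact pow_ne_zero _ (stretch_ne' hL (sq_ne rfl hw))

theorem S2_S2 {L L' : ℝ} (hL : 0 < L) (hL' : 0 < L') (w : ℂ) :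
    S2 L (S2 L' w) = S2 (L * L') w := by
  obtain ⟨v, rfl⟩ := exists_sqrt w
  rw [S2_sq hL', S2_sq hL, S2_sq (mul_pos hL hL'), stretch_stretch']

theorem r2_re {L : ℝ} (hL : 0 < L) {w : ℂ} (hw : w ≠ 0) : 0 < (r2 L w).re := by
  obtain ⟨v, rfl⟩ := exists_sqrt w
  have hv : v ≠ 0 := sq_ne rfl hw
  change 0 < (L * ((‖v ^ 2‖ + (v ^ 2).re) / 2) + L⁻¹ * ((‖v ^ 2‖ - (v ^ 2).re) / 2)) / ‖v ^ 2‖
  refine div_pos ?_ (norm_pos_iff.2 hw)
  rw [norm_sq', sq_re']
  have hL' : 0 < L⁻¹ := inv_pos.2 hL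
  rcases eq_or_ne v.re 0 with h | h
  · have h2 : v.im ≠ 0 := fun h2 => hv (Complex.ext h h2)
    have h3 : 0 < v.im ^ 2 := by positivity
    rw [h]
    nlinarith [mul_pos hL' h3]
  · have h3 : 0 < v.re ^ 2 := by positivity
    have h4 : 0 ≤ v.im ^ 2 := sq_nonneg _
    nlinarith [mul_pos hL h3, mul_nonneg hL'.le h4]

private theorem r2_ne {L : ℝ} (hL : 0 < L) {w : ℂ} (hw : w ≠ 0) : r2 L w ≠ 0 := by
  intro h
  have := r2_re hL hw
  rw [h, Complex.zero_re] at this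
  exact lt_irrefl _ this

private theorem arg_r2 {L : ℝ} (hL : 0 < L) {w : ℂ} (hw : w ≠ 0) :
    |(r2 L w).arg| < Real.pi / 2 :=
  Complex.abs_arg_lt_pi_div_two_iff.2 (Or.inl (r2_re hL hw))

theorem qr_ne (n : ℕ) (L : ℝ) (w : ℂ) : qr n L w ≠ 0 := Complex.exp_ne_zero _

theorem r2_pow {L : ℝ} (hL : 0 < L) {w : ℂ} (hw : w ≠ 0) : r2 L w ^ 2 = S2 L w / w := by
  obtain ⟨v, rfl⟩ := exists_sqrt w
  rw [r2_sq hL v (sq_ne rfl hw), S2_sq hL, div_pow]

theorem qr_pow {n : ℕ} (hn : 0 < n) {L : ℝ} (hL : 0 < L) {w : ℂ} (hw : w ≠ 0) :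
    qr n L w ^ n = S2 L w / w := by
  have hk : (n : ℂ) ≠ 0 := by exact_mod_cast hn.ne'
  rw [qr, ← Complex.exp_nat_mul, mul_div_cancel₀ _ hk, ← r2_pow hL hw]
  have h1 : (2 : ℂ) * Complex.log (r2 L w) = ((2 : ℕ) : ℂ) * Complex.log (r2 L w) := by
    push_cast
    ring
  rw [h1, Complex.exp_nat_mul, Complex.exp_log (r2_ne hL hw)]

theorem arg_qr {n : ℕ} (hn : 0 < n) {L : ℝ} (hL : 0 < L) {w : ℂ} (hw : w ≠ 0) :
    |(qr n L w).arg| < Real.pi / n := by
  have hk : (1 : ℝ) ≤ n := by exact_mod_cast hn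
  have hk0 : (0 : ℝ) < n := by linarith
  have h1 : (2 * Complex.log (r2 L w) / n).im = 2 * (r2 L w).arg / n := by
    rw [← Complex.ofReal_natCast, Complex.div_ofReal_im, Complex.mul_im, Complex.log_im]
    simp
  have h2 := arg_r2 hL hw
  have h3 : |2 * (r2 L w).arg / n| < Real.pi / n := by
    rw [abs_div, abs_of_pos hk0, abs_mul, abs_of_pos (by norm_num : (0 : ℝ) < 2)]
    exact div_lt_div_of_pos_right (by linarith) hk0
  have h4 : Real.pi / n ≤ Real.pi := div_le_self Real.pi_pos.le hk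
  have h5 := abs_lt.1 h3
  have h6 : (qr n L w).arg = 2 * (r2 L w).arg / n := by
    rw [qr, ← Complex.log_im, Complex.log_exp, h1]
    · rw [h1]; linarith [h5.1]
    · rw [h1]; linarith [h5.2]
  rw [h6]
  exact h3

theorem r2_mul {L L' : ℝ} (hL : 0 < L) (hL' : 0 < L') {w : ℂ} (hw : w ≠ 0) :
    r2 L (S2 L' w) * r2 L' w = r2 (L * L') w := by
  obtain ⟨v, rfl⟩ := exists_sqrt w
  have hv : v ≠ 0 := sq_ne rfl hw
  have hv' := stretch_ne' hL' hv
  rw [S2_sq hL', r2_sq hL' v hv, r2_sq hL _ hv', r2_sq (mul_pos hL hL') v hv, stretch_stretch',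
    div_mul_div_cancel₀ hv']

theorem qr_mul {n : ℕ} {L L' : ℝ} (hL : 0 < L) (hL' : 0 < L') {w : ℂ} (hw : w ≠ 0) :
    qr n L (S2 L' w) * qr n L' w = qr n (L * L') w := by
  have hw' := S2_ne hL' hw
  have h1 := abs_lt.1 (arg_r2 hL hw')
  have h2 := abs_lt.1 (arg_r2 hL' hw)
  have h4 := Complex.log_mul (r2_ne hL hw') (r2_ne hL' hw)
    ⟨by linarith [h1.1, h2.1], by linarith [h1.2, h2.2]⟩
  rw [r2_mul hL hL' hw] at h4
  rw [qr, qr, qr, ← Complex.exp_add, ← add_div, h4, mul_add]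

theorem continuousAt_r2 (L : ℝ) {w : ℂ} (hw : w ≠ 0) : ContinuousAt (r2 L) w := by
  have hn : ‖w‖ ≠ 0 := norm_ne_zero_iff.2 hw
  have h1 : r2 L = fun w : ℂ =>
      (((L * ((‖w‖ + w.re) / 2) + L⁻¹ * ((‖w‖ - w.re) / 2)) / ‖w‖ : ℝ) : ℂ) +
        (((L⁻¹ - L) * w.im / 2 / ‖w‖ : ℝ) : ℂ) * Complex.I := by
    funext w
    apply Complex.ext <;> simp [r2]
  have c1 : ContinuousAt (fun w : ℂ => ‖w‖) w := continuous_norm.continuousAt
  have c2 : ContinuousAt (fun w : ℂ => w.re) w := Complex.continuous_re.continuousAt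
  have c3 : ContinuousAt (fun w : ℂ => w.im) w := Complex.continuous_im.continuousAt
  have c4 : ContinuousAt (fun w : ℂ =>
      (L * ((‖w‖ + w.re) / 2) + L⁻¹ * ((‖w‖ - w.re) / 2)) / ‖w‖) w :=
    ((((c1.add c2).div_const 2).const_mul L).add
      (((c1.sub c2).div_const 2).const_mul L⁻¹)).div c1 hn
  have c5 : ContinuousAt (fun w : ℂ => (L⁻¹ - L) * w.im / 2 / ‖w‖) w :=
    ((c3.const_mul (L⁻¹ - L)).div_const 2).div c1 hn
  rw [h1]
  exact (Complex.continuous_ofReal.continuousAt.comp c4).add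
    ((Complex.continuous_ofReal.continuousAt.comp c5).mul continuousAt_const)

theorem continuousAt_qr (n : ℕ) {L : ℝ} (hL : 0 < L) {w : ℂ} (hw : w ≠ 0) :
    ContinuousAt (qr n L) w := by
  have h3 : ContinuousAt (fun w => Complex.log (r2 L w)) w :=
    ContinuousAt.comp (g := Complex.log) (f := fun w => r2 L w)
      (continuousAt_clog (Or.inl (r2_re hL hw))) (continuousAt_r2 L hw)
  have h4 : ContinuousAt (fun w => 2 * Complex.log (r2 L w) / n) w :=
    (h3.const_mul 2).div_const _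
  exact ContinuousAt.comp (g := Complex.exp)
    (f := fun w => 2 * Complex.log (r2 L w) / n) Complex.continuous_exp.continuousAt h4

end Pool.Agent.ANO2.Cone
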