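import Pool.Agent.ANO2.Cone.RotA

/-!
# ANO phase 2, Cone2: the rotation at an `n`-prong point

Let `s` be a point with a chart `ψ`, `T s = s`, `T` continuous, `ψ (T z) ^ n = S2 L (ψ z ^ n)` near
`s` (`RotC`).

* `exists_rot`: in a small ball around `s` the function `ψ` is not zero for `z ≠ s`.  The
  function `u z = ψ (T z) / (qr n L (ψ z ^ n) * ψ z)` is continuous on the punctured ball and
  `u ^ n = 1` there.  The punctured ball is connected, so `u` is constant.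
* `rot_comp`: apply the formula for `T` at `T' z`; `ψ (T' z) ^ n = S2 L' (ψ z ^ n)`.
* `coneFixed_of_rot`: `ω = qr n L (ψ z ^ n)`, and `ω = 1` if `ψ z = 0`.
-/

set_option autoImplicit false

open Set Filter Topology
open scoped UpperHalfPlane

namespace Pool.Agent.ANO2.Cone

open Pool.Agent.ANO

/-- `T` fixes `s` and is the rotation by `ξ` followed by a map which fixes the quadrants -/
structure Rot (s : ℍ) (n : ℕ) (ψ : ℂ → ℂ) (L : ℝ) (ξ : ℂ) (T : ℍ → ℍ) : Prop where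
  fix : T s = s
  cont : Continuous T
  root : ξ ^ n = 1
  map : ∀ᶠ z in 𝓝 s, z ≠ s → ψ (T z : ℂ) = ξ * (qr n L (ψ (z : ℂ) ^ n) * ψ (z : ℂ))
  pow : ∀ᶠ z in 𝓝 s, ψ (T z : ℂ) ^ n = S2 L (ψ (z : ℂ) ^ n)

theorem exists_ball {s : ℍ} {p : ℍ → Prop} (hp : ∀ᶠ z in 𝓝 s, p z) :
    ∃ ρ > 0, Metric.ball (s : ℂ) ρ ⊆ Set.range ((↑) : ℍ → ℂ) ∧
      ∀ z : ℍ, (z : ℂ) ∈ Metric.ball (s : ℂ) ρ → p z := by
  have h1 : ((↑) : ℍ → ℂ) '' {z | p z} ∈ 𝓝 (s : ℂ) := by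
    rw [← UpperHalfPlane.isOpenEmbedding_coe.map_nhds_eq s]
    exact Filter.image_mem_map hp
  obtain ⟨ρ, hρ, hb⟩ := Metric.mem_nhds_iff.1 h1
  refine ⟨ρ, hρ, fun x hx => ?_, fun z hz => ?_⟩
  · obtain ⟨y, -, rfl⟩ := hb hx
    exact ⟨y, rfl⟩
  · obtain ⟨y, hy, hyz⟩ := hb hz
    have := UpperHalfPlane.isOpenEmbedding_coe.injective hyz
    rw [← this]
    exact hy

theorem punct_preconnected (a : ℂ) (ρ : ℝ) :
    IsPreconnected (Metric.ball a ρ \ {a}) := by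
  have h1 : IsPreconnected (Set.Ioo (0 : ℝ) ρ ×ˢ (Set.univ : Set ℝ)) :=
    isPreconnected_Ioo.prod isPreconnected_univ
  have h2 : Metric.ball a ρ \ {a} = (fun q : ℝ × ℝ => a + q.1 * Complex.exp (q.2 * Complex.I)) ''
      (Set.Ioo (0 : ℝ) ρ ×ˢ (Set.univ : Set ℝ)) := by
    ext z
    constructor
    · rintro ⟨h, h'⟩
      refine ⟨(‖z - a‖, (z - a).arg), ⟨⟨norm_pos_iff.2 (sub_ne_zero.2 h'), ?_⟩, trivial⟩, ?_⟩
      · rwa [Metric.mem_ball, dist_eq_norm] at h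
      · simp only [Complex.norm_mul_exp_arg_mul_I]
        ring
    · rintro ⟨⟨t, θ⟩, ⟨⟨h, h'⟩, -⟩, rfl⟩
      have h3 : ‖(t : ℂ) * Complex.exp (θ * Complex.I)‖ = t := by
        rw [norm_mul, Complex.norm_exp_ofReal_mul_I, mul_one, Complex.norm_real,
          Real.norm_of_nonneg h.le]
      refine ⟨?_, fun he => ?_⟩
      · rw [Metric.mem_ball, dist_eq_norm, add_sub_cancel_left, h3]
        exact h'
      · have h4 : (t : ℂ) * Complex.exp (θ * Complex.I) = 0 := by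
          have : a + (t : ℂ) * Complex.exp (θ * Complex.I) = a := he
          simpa using this
        rw [h4, norm_zero] at h3
        exact h.ne h3
  rw [h2]
  exact h1.image _ (by fun_prop)

theorem coe_ev {s : ℍ} {p : ℂ → Prop} (h : ∀ᶠ z in 𝓝 (s : ℂ), p z) :
    ∀ᶠ z : ℍ in 𝓝 s, p (z : ℂ) :=
  (UpperHalfPlane.continuous_coe.tendsto s).eventually h

theorem eventually_ne_zero {s : ℍ} {ψ : ℂ → ℂ} (hψ : AnalyticAt ℂ ψ (s : ℂ))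
    (h1 : deriv ψ (s : ℂ) ≠ 0) : ∀ᶠ z : ℍ in 𝓝 s, z ≠ s → ψ (z : ℂ) ≠ 0 := by
  have h2 : ∀ᶠ z in 𝓝[≠] (s : ℂ), ψ z ≠ 0 :=
    hψ.differentiableAt.hasDerivAt.eventually_ne h1
  rw [eventually_nhdsWithin_iff] at h2
  have h3 := coe_ev h2
  filter_upwards [h3] with z hz hzs
  exact hz fun h => hzs (UpperHalfPlane.isOpenEmbedding_coe.injective h)

theorem exists_rot {s : ℍ} {n : ℕ} (hn : 0 < n) {ψ : ℂ → ℂ} (hψ : AnalyticAt ℂ ψ (s : ℂ))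
    (h1 : deriv ψ (s : ℂ) ≠ 0) {L : ℝ} (hL : 0 < L) {T : ℍ → ℍ} (hT : Continuous T)
    (hs : T s = s) (h : ∀ᶠ z in 𝓝 s, ψ (T z : ℂ) ^ n = S2 L (ψ (z : ℂ) ^ n)) :
    ∃ ξ, Rot s n ψ L ξ T := by
  have hc : ∀ᶠ z : ℍ in 𝓝 s, ContinuousAt ψ (z : ℂ) :=
    coe_ev (hψ.eventually_analyticAt.mono fun z hz => hz.continuousAt)
  have hT' : Tendsto T (𝓝 s) (𝓝 s) := by
    have := hT.continuousAt (x := s)
    rwa [ContinuousAt, hs] at this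
  have hcT : ∀ᶠ z : ℍ in 𝓝 s, ContinuousAt ψ (T z : ℂ) := hT'.eventually hc
  have hne := eventually_ne_zero hψ h1
  obtain ⟨ρ, hρ, hb, hp⟩ := exists_ball (hc.and (hcT.and (hne.and h)))
  set P : Set ℍ := ((↑) : ℍ → ℂ) ⁻¹' (Metric.ball (s : ℂ) ρ \ {(s : ℂ)}) with hP
  have hPc : IsPreconnected P := by
    rw [← UpperHalfPlane.isOpenEmbedding_coe.isInducing.isPreconnected_image, hP,
      Set.image_preimage_eq_of_subset (Set.sdiff_subset.trans hb)]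
    exact punct_preconnected _ _
  have hPs : ∀ z ∈ P, z ≠ s := by
    rintro z hz rfl
    exact hz.2 rfl
  set u : ℍ → ℂ := fun z => ψ (T z : ℂ) / (qr n L (ψ (z : ℂ) ^ n) * ψ (z : ℂ)) with hu
  have huc : ContinuousOn u P := by
    intro z hz
    obtain ⟨hz1, hz2, hz3, hz4⟩ := hp z hz.1
    have hz0 : ψ (z : ℂ) ≠ 0 := hz3 (hPs z hz)
    have c1 : ContinuousAt (fun z : ℍ => ψ (z : ℂ)) z :=
      ContinuousAt.comp (g := ψ) (f := fun z : ℍ => (z : ℂ)) hz1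
        UpperHalfPlane.continuous_coe.continuousAt
    have c2 : ContinuousAt (fun z : ℍ => ψ (T z : ℂ)) z :=
      ContinuousAt.comp (g := ψ) (f := fun z : ℍ => (T z : ℂ)) hz2
        (UpperHalfPlane.continuous_coe.comp hT).continuousAt
    have c3 : ContinuousAt (fun z : ℍ => qr n L (ψ (z : ℂ) ^ n)) z :=
      ContinuousAt.comp (g := qr n L) (f := fun z : ℍ => ψ (z : ℂ) ^ n)
        (continuousAt_qr n hL (pow_ne_zero _ hz0)) (c1.pow n)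
    exact (c2.div (c3.mul c1) (mul_ne_zero (qr_ne _ _ _) hz0)).continuousWithinAt
  have hur : ∀ z ∈ P, u z ^ n = 1 := by
    intro z hz
    obtain ⟨hz1, hz2, hz3, hz4⟩ := hp z hz.1
    have hz0 : ψ (z : ℂ) ≠ 0 := hz3 (hPs z hz)
    have hw : ψ (z : ℂ) ^ n ≠ 0 := pow_ne_zero _ hz0
    rw [hu]
    simp only
    rw [div_pow, mul_pow, qr_pow hn hL hw, hz4, div_mul_cancel₀ _ hw,
      div_self (S2_ne hL hw)]
  have hfin : Set.Finite {ξ : ℂ | ξ ^ n = 1} := by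
    have : {ξ : ℂ | ξ ^ n = 1} ⊆ ((Polynomial.nthRoots n (1 : ℂ)).toFinset : Set ℂ) := by
      intro ξ hξ
      simpa [Polynomial.mem_nthRoots hn] using hξ
    exact (Finset.finite_toSet _).subset this
  obtain ⟨ξ, hξ, hξu⟩ := hPc.eqOn_const_of_mapsTo hfin.isDiscrete huc hur ⟨1, one_pow n⟩
  refine ⟨ξ, hs, hT, hξ, ?_, h⟩
  have hmem : ∀ᶠ z : ℍ in 𝓝 s, (z : ℂ) ∈ Metric.ball (s : ℂ) ρ :=
    coe_ev (Metric.ball_mem_nhds _ hρ)
  filter_upwards [hmem] with z hz hzs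
  have hzP : z ∈ P := ⟨hz, fun he => hzs (UpperHalfPlane.isOpenEmbedding_coe.injective he)⟩
  obtain ⟨hz1, hz2, hz3, hz4⟩ := hp z hz
  have hz0 : ψ (z : ℂ) ≠ 0 := hz3 hzs
  have h5 : u z = ξ := hξu hzP
  rw [← h5, hu]
  simp only
  rw [div_mul_cancel₀]
  exact mul_ne_zero (qr_ne _ _ _) hz0

theorem rot_comp {s : ℍ} {n : ℕ} (hn : 0 < n) {ψ : ℂ → ℂ} (hψ : AnalyticAt ℂ ψ (s : ℂ))
    (h0 : ψ s = 0) (h1 : deriv ψ (s : ℂ) ≠ 0) {L L' : ℝ} (hL : 0 < L) (hL' : 0 < L') {ξ ξ' : ℂ}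
    {T T' : ℍ → ℍ} (h : Rot s n ψ L ξ T) (h' : Rot s n ψ L' ξ' T') :
    Rot s n ψ (L * L') (ξ * ξ') (T ∘ T') := by
  have hne := eventually_ne_zero hψ h1
  have hT' : Tendsto T' (𝓝 s) (𝓝 s) := by
    have := h'.cont.continuousAt (x := s)
    rwa [ContinuousAt, h'.fix] at this
  refine ⟨by rw [Function.comp_apply, h'.fix, h.fix], h.cont.comp h'.cont, ?_, ?_, ?_⟩
  · rw [mul_pow, h.root, h'.root, mul_one]
  · filter_upwards [hT'.eventually h.map, h'.map, h'.pow, hne] with z hz1 hz2 hz3 hz4 hzs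
    have hz0 : ψ (z : ℂ) ≠ 0 := hz4 hzs
    have hw : ψ (z : ℂ) ^ n ≠ 0 := pow_ne_zero _ hz0
    have hTz : T' z ≠ s := by
      intro he
      rw [he, h0, zero_pow hn.ne'] at hz3
      exact S2_ne hL' hw hz3.symm
    rw [Function.comp_apply, hz1 hTz, hz3, hz2 hzs, ← qr_mul hL hL' hw]
    ring
  · filter_upwards [hT'.eventually h.pow, h'.pow] with z hz1 hz2
    rw [Function.comp_apply, hz1, hz2, S2_S2 hL hL']

theorem rot_iterate {s : ℍ} {n : ℕ} (hn : 0 < n) {ψ : ℂ → ℂ} (hψ : AnalyticAt ℂ ψ (s : ℂ))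
    (h0 : ψ s = 0) (h1 : deriv ψ (s : ℂ) ≠ 0) {L : ℝ} (hL : 0 < L) {ξ : ℂ}
    {T : ℍ → ℍ} (h : Rot s n ψ L ξ T) {j : ℕ} (hj : 0 < j) :
    Rot s n ψ (L ^ j) (ξ ^ j) T^[j] := by
  induction j, hj using Nat.le_induction with
  | base => simpa using h
  | succ j hj ih =>
    rw [pow_succ, pow_succ, Function.iterate_succ]
    exact rot_comp hn hψ h0 h1 (pow_pos hL j) hL ih h

/-- The local description of a power which fixes the quadrants. -/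
theorem local_of_rot {s : ℍ} {n : ℕ} (hn : 0 < n) {ψ : ℂ → ℂ}
    (hψ : AnalyticAt ℂ ψ (s : ℂ)) (h0 : ψ s = 0) (h1 : deriv ψ (s : ℂ) ≠ 0)
    {L : ℝ} (hL : 1 < L) {T : ℍ → ℍ} (h : Rot s n ψ L 1 T) :
    ∀ᶠ z : ℍ in 𝓝 s, ∃ ω : ℂ, |ω.arg| < Real.pi / n ∧ ψ (T z : ℂ) = ω * ψ (z : ℂ) ∧
      ∀ v : ℂ, v ^ 2 = ψ (z : ℂ) ^ n → (ω * ψ (z : ℂ)) ^ n = stretch L v ^ 2 := by
  have hL0 : 0 < L := by linarith
  have hk : (0 : ℝ) < n := by exact_mod_cast hn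
  filter_upwards [h.map, h.pow, eventually_ne_zero hψ h1] with z hz1 hz2 hz3
  rcases eq_or_ne z s with rfl | hzs
  · refine ⟨1, ?_, ?_, fun v hv => ?_⟩
    · rw [Complex.arg_one, abs_zero]
      have := Real.pi_pos
      positivity
    · rw [h.fix, h0, mul_zero]
    · rw [h0, zero_pow hn.ne'] at hv
      rw [h0, mul_zero, zero_pow hn.ne', ← S2_sq hL0, hv, S2_zero]
  · have hz0 : ψ (z : ℂ) ≠ 0 := hz3 hzs
    have hw : ψ (z : ℂ) ^ n ≠ 0 := pow_ne_zero _ hz0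
    refine ⟨qr n L (ψ (z : ℂ) ^ n), arg_qr hn hL0 hw, ?_, fun v hv => ?_⟩
    · rw [hz1 hzs, one_mul]
    · rw [mul_pow, qr_pow hn hL0 hw, div_mul_cancel₀ _ hw, ← S2_sq hL0, hv]

theorem coneFixed_of_rot {s : ℍ} {n : ℕ} (hn : 0 < n) {ψ : ℂ → ℂ}
    (hψ : AnalyticAt ℂ ψ (s : ℂ)) (h0 : ψ s = 0) (h1 : deriv ψ (s : ℂ) ≠ 0)
    {L : ℝ} (hL : 1 < L) {T : ℍ → ℍ} (h : Rot s n ψ L 1 T) : ConeFixed s n T :=
  ⟨h.fix, h.cont, ψ, L, hL, hψ, h0, h1, local_of_rot hn hψ h0 h1 hL h⟩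

/-- Some power of `T` fixes all quadrants. -/
theorem rot_one {s : ℍ} {n : ℕ} (hn : 0 < n) {ψ : ℂ → ℂ} (hψ : AnalyticAt ℂ ψ (s : ℂ))
    (h0 : ψ s = 0) (h1 : deriv ψ (s : ℂ) ≠ 0) {L : ℝ} (hL : 0 < L) {T : ℍ → ℍ}
    (hT : Continuous T) (hs : T s = s)
    (h : ∀ᶠ z in 𝓝 s, ψ (T z : ℂ) ^ n = S2 L (ψ (z : ℂ) ^ n)) {j : ℕ} (hj : 0 < j) :
    Rot s n ψ ((L ^ n) ^ j) 1 (T^[n])^[j] := by
  obtain ⟨ξ, hξ⟩ := exists_rot hn hψ h1 hL hT hs h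
  have h2 := rot_iterate hn hψ h0 h1 hL hξ hn
  rw [hξ.root] at h2
  have h3 := rot_iterate hn hψ h0 h1 (pow_pos hL n) h2 hj
  rwa [one_pow] at h3

end Pool.Agent.ANO2.Cone
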