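import Pool.Agent.ANO2.Cone.RotB
import Pool.Agent.ANO2.Geo2.AffB
import Pool.Agent.ANO2.Geo2.Normal

/-!
# ANO phase 2, Cone2: affine homeomorphisms at an `n`-prong point

`aff_pow`: if `φ` is affine with factor `l`, `φ s = s` and `ψ` is a chart at `s` then
`ψ (φ z) ^ n = S2 l (ψ z ^ n)` near `s`.  Near a point `z ≠ s` let `v² = ψ^n`, and near `φ z` let
`v2² = ψ^n`; these are branches of `∫ √q`, so `v2 (φ w) = e str l (v w) + c` near `z`, `e = ± 1`.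
The
constant `c²` depends only on `z` (`Rel.unique`), and it is locally constant (`Rel.nhds`), so
it is constant on a punctured ball.  `c → 0` for `z → s`.  So `c = 0`.
-/

set_option autoImplicit false

open Set Filter Topology
open scoped UpperHalfPlane

namespace Pool.Agent.ANO2.Cone

open Pool.Agent.ANO Geo2

/-- Two functions with the same square differ by a sign. -/
theorem sq_sign {f g : ℂ → ℂ} {z : ℂ} (hf : ContinuousAt f z) (hg : ContinuousAt g z)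
    (h : ∀ᶠ w in 𝓝 z, f w ^ 2 = g w ^ 2) (hz : g z ≠ 0) :
    ∃ e : ℂ, (e = 1 ∨ e = -1) ∧ ∀ᶠ w in 𝓝 z, f w = e * g w := by
  obtain ⟨e, he, h1⟩ : ∃ e : ℂ, (e = 1 ∨ e = -1) ∧ f z = e * g z := by
    rcases sq_eq_sq_iff_eq_or_eq_neg.1 h.self_of_nhds with h1 | h1
    · exact ⟨1, Or.inl rfl, by rw [h1, one_mul]⟩
    · exact ⟨-1, Or.inr rfl, by rw [h1, neg_one_mul]⟩
  have he2 : e * e = 1 := by rcases he with rfl | rfl <;> norm_num
  have he0 : e ≠ 0 := by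
    rintro rfl
    norm_num at he2
  have hc : ContinuousAt (fun w => f w + e * g w) z := hf.add (hg.const_mul e)
  have h2 : f z + e * g z ≠ 0 := by
    rw [h1, ← two_mul]
    exact mul_ne_zero two_ne_zero (mul_ne_zero he0 hz)
  refine ⟨e, he, ?_⟩
  filter_upwards [hc.eventually_ne h2, h] with w h3 h4
  have h5 : (f w - e * g w) * (f w + e * g w) = 0 := by
    linear_combination h4 - (g w ^ 2) * he2
  exact sub_eq_zero.1 ((mul_eq_zero.1 h5).resolve_right h3)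

/-- A local branch of `ψ^(n/2)`. -/
theorem exists_root {ψ : ℂ → ℂ} {z : ℂ} (hψ : AnalyticAt ℂ ψ z) (h0 : ψ z ≠ 0) (n : ℕ) :
    ∃ v : ℂ → ℂ, AnalyticAt ℂ v z ∧ ∀ᶠ w in 𝓝 z, v w ^ 2 = ψ w ^ n := by
  have hf : AnalyticAt ℂ (fun w => ψ w ^ n) z := hψ.pow n
  have hf0 : ψ z ^ n ≠ 0 := pow_ne_zero n h0
  obtain ⟨a, ha⟩ := exists_sqrt (ψ z ^ n)
  have hw : AnalyticAt ℂ (fun w => ψ w ^ n / ψ z ^ n) z := hf.div analyticAt_const hf0
  have hw1 : ψ z ^ n / ψ z ^ n = 1 := div_self hf0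
  refine ⟨fun w => a * Complex.exp (Complex.log (ψ w ^ n / ψ z ^ n) / 2), ?_, ?_⟩
  · refine analyticAt_const.mul (AnalyticAt.cexp ?_)
    refine (AnalyticAt.clog hw ?_).div analyticAt_const two_ne_zero
    rw [hw1]
    exact Complex.one_mem_slitPlane
  · filter_upwards [hf.continuousAt.eventually_ne hf0] with w hw0
    have hww : ψ w ^ n / ψ z ^ n ≠ 0 := div_ne_zero hw0 hf0
    have he : Complex.exp (Complex.log (ψ w ^ n / ψ z ^ n) / 2) ^ 2 = ψ w ^ n / ψ z ^ n := by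
      rw [← Complex.exp_nat_mul]
      have h3 : ((2 : ℕ) : ℂ) * (Complex.log (ψ w ^ n / ψ z ^ n) / 2) =
          Complex.log (ψ w ^ n / ψ z ^ n) := by
        push_cast
        ring
      rw [h3, Complex.exp_log hww]
    rw [mul_pow, he, ha, mul_div_cancel₀ _ hf0]

variable {Q : QD} {n : ℕ} {ψ : ℂ → ℂ}

/-- A branch of `ψ^(n/2)` is a branch of `∫ √q`. -/
theorem root_branch (hn : 2 ≤ n) {z : ℂ} (hψ : AnalyticAt ℂ ψ z) (h0 : ψ z ≠ 0)
    (hq : ∀ᶠ w in 𝓝 z, Q.q w = ((n : ℂ) / 2) ^ 2 * ψ w ^ (n - 2) * deriv ψ w ^ 2) {v : ℂ → ℂ}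
    (hv : AnalyticAt ℂ v z) (h : ∀ᶠ w in 𝓝 z, v w ^ 2 = ψ w ^ n) :
    ∀ᶠ w in 𝓝 z, deriv v w ^ 2 = Q.q w := by
  filter_upwards [hq, hψ.continuousAt.eventually_ne h0, hψ.eventually_analyticAt,
    hv.eventually_analyticAt, h.eventually_nhds] with w h1 h2 h3 h4 h5
  have d1 : HasDerivAt (fun w => v w ^ 2) (2 * v w * deriv v w) w := by
    have := h4.differentiableAt.hasDerivAt.fun_pow 2
    simpa using this
  have d2 : HasDerivAt (fun w => ψ w ^ n) (n * ψ w ^ (n - 1) * deriv ψ w) w :=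
    h3.differentiableAt.hasDerivAt.pow n
  have d3 := (d2.congr_of_eventuallyEq h5).unique d1
  have h6 : v w ^ 2 = ψ w ^ n := h5.self_of_nhds
  obtain ⟨k, rfl⟩ := Nat.exists_eq_add_of_le hn
  have h7 : ψ w ^ (2 + k) ≠ 0 := pow_ne_zero _ h2
  have e1 : 2 + k - 1 = k + 1 := by omega
  have e2 : 2 + k - 2 = k := by omega
  rw [e1] at d3
  rw [h1, e2]
  have h8 : (2 * v w * deriv v w) ^ 2 =
      (((2 + k : ℕ) : ℂ) * ψ w ^ (k + 1) * deriv ψ w) ^ 2 := by rw [d3]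
  have h9 : 4 * ψ w ^ (2 + k) * deriv v w ^ 2 =
      4 * ψ w ^ (2 + k) * ((((2 + k : ℕ) : ℂ) / 2) ^ 2 * ψ w ^ k * deriv ψ w ^ 2) := by
    have h10 : 4 * v w ^ 2 * deriv v w ^ 2 =
        (((2 + k : ℕ) : ℂ)) ^ 2 * (ψ w ^ (k + 1)) ^ 2 * deriv ψ w ^ 2 := by
      linear_combination h8
    rw [h6] at h10
    rw [h10]
    ring
  exact mul_left_cancel₀ (mul_ne_zero (by norm_num) h7) h9

private theorem str_add (l : ℝ) (z w : ℂ) : str l (z + w) = str l z + str l w := by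
  apply Complex.ext <;> simp [str, mul_add]

private theorem str_smul (l : ℝ) {ε : ℂ} (hε : ε = 1 ∨ ε = -1) (z : ℂ) :
    str l (ε * z) = ε * str l z := by
  rcases hε with rfl | rfl <;> apply Complex.ext <;> simp [str]

private theorem str_inj {l : ℝ} (hl : 0 < l) {z w : ℂ} (h : str l z = str l w) : z = w := by
  have h1 := congrArg Complex.re h
  have h2 := congrArg Complex.im h
  simp only [str] at h1 h2
  exact Complex.ext (mul_left_cancel₀ hl.ne' h1) (mul_left_cancel₀ (inv_ne_zero hl.ne') h2)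

private theorem norm_str {l : ℝ} (hl : 0 < l) (z : ℂ) : ‖str l z‖ ≤ (l + l⁻¹) * ‖z‖ := by
  have h1 := Complex.norm_le_abs_re_add_abs_im (str l z)
  have h2 : |(str l z).re| = l * |z.re| := by
    change |l * z.re| = _
    rw [abs_mul, abs_of_pos hl]
  have h3 : |(str l z).im| = l⁻¹ * |z.im| := by
    change |l⁻¹ * z.im| = _
    rw [abs_mul, abs_of_pos (inv_pos.2 hl)]
  rw [h2, h3] at h1
  have h4 := Complex.abs_re_le_norm z
  have h5 := Complex.abs_im_le_norm z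
  have h6 : 0 < l⁻¹ := inv_pos.2 hl
  nlinarith [mul_le_mul_of_nonneg_left h4 hl.le, mul_le_mul_of_nonneg_left h5 h6.le]

private theorem sign_mul {ε ε' : ℂ} (h : ε = 1 ∨ ε = -1) (h' : ε' = 1 ∨ ε' = -1) :
    ε * ε' = 1 ∨ ε * ε' = -1 := by
  rcases h with rfl | rfl <;> rcases h' with rfl | rfl <;> simp

private theorem sign_sq {ε : ℂ} (h : ε = 1 ∨ ε = -1) : ε * ε = 1 := by
  rcases h with rfl | rfl <;> norm_num

/-- `k = c²`, where `v2 (φ w) = e str l (v w) + c` near `z`. -/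
def Rel (ψ : ℂ → ℂ) (n : ℕ) (φ : ℂ → ℂ) (l : ℝ) (z k : ℂ) : Prop :=
  ∃ (v v2 : ℂ → ℂ) (e c : ℂ), AnalyticAt ℂ v z ∧ AnalyticAt ℂ v2 (φ z) ∧
    (∀ᶠ w in 𝓝 z, v w ^ 2 = ψ w ^ n) ∧ (∀ᶠ w in 𝓝 (φ z), v2 w ^ 2 = ψ w ^ n) ∧
    (e = 1 ∨ e = -1) ∧ (∀ᶠ w in 𝓝 z, v2 (φ w) = e * str l (v w) + c) ∧ c ^ 2 = k

/-- the good points -/
structure Good (Q : QD) (n : ℕ) (ψ : ℂ → ℂ) (z : ℂ) : Prop where
  mem : z ∈ Q.U
  an : AnalyticAt ℂ ψ z
  ne : ψ z ≠ 0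
  q_ne : Q.q z ≠ 0
  eq : ∀ᶠ w in 𝓝 z, Q.q w = ((n : ℂ) / 2) ^ 2 * ψ w ^ (n - 2) * deriv ψ w ^ 2

theorem rel_exists {φ φ' : ℂ → ℂ} {l : ℝ} (h : Aff Q φ φ' l) (hn : 2 ≤ n) {z : ℂ}
    (hz : Good Q n ψ z) (hz' : Good Q n ψ (φ z)) : ∃ k, Rel ψ n φ l z k := by
  obtain ⟨v, hv, hv2⟩ := exists_root hz.an hz.ne n
  obtain ⟨v', hv', hv2'⟩ := exists_root hz'.an hz'.ne n
  have b := root_branch hn hz.an hz.ne hz.eq hv hv2
  have b' := root_branch hn hz'.an hz'.ne hz'.eq hv' hv2'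
  obtain ⟨D1, D2, a1, a2, e1, e2, hD⟩ := h.aff z hz.mem hz.q_ne
  obtain ⟨ε, c, hε, h1⟩ := branch_unique hv a1 b e1 hz.q_ne
  obtain ⟨ε', c', hε', h1'⟩ := branch_unique a2 hv' e2 b' hz'.q_ne
  have hc : Tendsto φ (𝓝 z) (𝓝 (φ z)) := h.cont.continuousAt (Q.isOpen.mem_nhds hz.mem)
  refine ⟨_, v, v', ε' * ε, ε' * str l c + c', hv, hv', hv2, hv2', sign_mul hε' hε, ?_, rfl⟩
  filter_upwards [h1, hc.eventually h1', hD] with w g1 g2 g3
  rw [g2, g3, g1, str_add, str_smul l hε]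
  ring

theorem rel_unique {φ : ℂ → ℂ} {l : ℝ} (hl : 0 < l) (hn : 2 ≤ n) {z : ℂ}
    (hz : Good Q n ψ z) (hz' : ψ (φ z) ≠ 0) (hc : ContinuousAt φ z) {k k' : ℂ}
    (h : Rel ψ n φ l z k) (h' : Rel ψ n φ l z k') : k = k' := by
  obtain ⟨v, v2, e, c, a1, a2, e1, e2, he, hv, rfl⟩ := h
  obtain ⟨u, u2, e', c', a1', a2', e1', e2', he', hu, rfl⟩ := h'
  have hv0 : v z ≠ 0 := by
    intro h0
    have := e1.self_of_nhds
    rw [h0, zero_pow two_ne_zero] at this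
    exact pow_ne_zero n hz.ne this.symm
  have hv20 : v2 (φ z) ≠ 0 := by
    intro h0
    have := e2.self_of_nhds
    rw [h0, zero_pow two_ne_zero] at this
    exact pow_ne_zero n hz' this.symm
  obtain ⟨d, hd, h1⟩ := sq_sign a1'.continuousAt a1.continuousAt (by
    filter_upwards [e1, e1'] with w g1 g2
    rw [g1, g2]) hv0
  obtain ⟨d', hd', h2⟩ := sq_sign a2'.continuousAt a2.continuousAt (by
    filter_upwards [e2, e2'] with w g1 g2
    rw [g1, g2]) hv20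
  have hdd := sign_sq hd'
  -- two formulas for `v2 (φ w)`
  have h3 : ∀ᶠ w in 𝓝 z, v2 (φ w) = d' * (e' * d) * str l (v w) + d' * c' := by
    filter_upwards [hu, h1, hc.eventually h2] with w g1 g2 g3
    rw [g2, str_smul l hd] at g1
    rw [g3] at g1
    linear_combination d' * g1 - (v2 (φ w)) * hdd
  have hs : d' * (e' * d) = 1 ∨ d' * (e' * d) = -1 := sign_mul hd' (sign_mul he' hd)
  have hb := root_branch hn hz.an hz.ne hz.eq a1 e1
  have hd0 : deriv v z ≠ 0 := by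
    intro h0
    have := hb.self_of_nhds
    rw [h0, zero_pow two_ne_zero] at this
    exact hz.q_ne this.symm
  have hee : d' * (e' * d) = e := by
    by_contra hne
    have hconst : ∀ᶠ w in 𝓝 z, v w = v z := by
      have h4 : ∀ᶠ w in 𝓝 z, (d' * (e' * d) - e) * str l (v w) = c - d' * c' := by
        filter_upwards [hv, h3] with w g1 g2
        linear_combination g1 - g2
      have h5 := h4.self_of_nhds
      filter_upwards [h4] with w g1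
      rw [← h5] at g1
      exact str_inj hl (mul_left_cancel₀ (sub_ne_zero.2 hne) g1)
    have h6 : deriv v z = 0 := by
      have h7 : v =ᶠ[𝓝 z] fun _ => v z := hconst
      rw [h7.deriv_eq, deriv_const]
    exact hd0 h6
  have h4 := hv.self_of_nhds
  have h5 := h3.self_of_nhds
  rw [hee] at h5
  have h6 : c = d' * c' := by linear_combination h5 - h4
  rw [h6]
  linear_combination (c' ^ 2) * hdd

theorem rel_nhds {φ : ℂ → ℂ} {l : ℝ} {z k : ℂ} (h : Rel ψ n φ l z k)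
    (hc : ContinuousAt φ z) : ∀ᶠ z' in 𝓝 z, Rel ψ n φ l z' k := by
  obtain ⟨v, v2, e, c, a1, a2, e1, e2, he, hv, rfl⟩ := h
  filter_upwards [a1.eventually_analyticAt, hc.eventually a2.eventually_analyticAt,
    e1.eventually_nhds, hc.eventually e2.eventually_nhds, hv.eventually_nhds] with z' g1 g2 g3 g4 g5
  exact ⟨v, v2, e, c, g1, g2, g3, g4, he, g5, rfl⟩

theorem rel_norm {φ : ℂ → ℂ} {l : ℝ} (hl : 0 < l) {z k : ℂ} (h : Rel ψ n φ l z k) :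
    ‖k‖ ≤ 2 * ‖ψ (φ z)‖ ^ n + 2 * (l + l⁻¹) ^ 2 * ‖ψ z‖ ^ n := by
  obtain ⟨v, v2, e, c, a1, a2, e1, e2, he, hv, rfl⟩ := h
  have h1 := hv.self_of_nhds
  have h2 : ‖v z‖ ^ 2 = ‖ψ z‖ ^ n := by
    rw [← norm_pow, e1.self_of_nhds, norm_pow]
  have h3 : ‖v2 (φ z)‖ ^ 2 = ‖ψ (φ z)‖ ^ n := by
    rw [← norm_pow, e2.self_of_nhds, norm_pow]
  have h4 : c = v2 (φ z) - e * str l (v z) := by rw [h1]; ring
  have h5 : ‖c‖ ≤ ‖v2 (φ z)‖ + (l + l⁻¹) * ‖v z‖ := by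
    rw [h4]
    refine (norm_sub_le _ _).trans ?_
    have h6 : ‖e * str l (v z)‖ = ‖str l (v z)‖ := by
      rcases he with rfl | rfl
      · rw [one_mul]
      · rw [neg_one_mul, norm_neg]
    rw [h6]
    have := norm_str hl (v z)
    linarith
  rw [norm_pow, ← h2, ← h3]
  have h7 : ‖c‖ ^ 2 ≤ (‖v2 (φ z)‖ + (l + l⁻¹) * ‖v z‖) ^ 2 :=
    pow_le_pow_left₀ (norm_nonneg _) h5 2
  nlinarith [sq_nonneg (‖v2 (φ z)‖ - (l + l⁻¹) * ‖v z‖)]

theorem rel_zero {φ : ℂ → ℂ} {l : ℝ} (hl : 0 < l) {z : ℂ} (h : Rel ψ n φ l z 0) :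
    ψ (φ z) ^ n = S2 l (ψ z ^ n) := by
  obtain ⟨v, v2, e, c, a1, a2, e1, e2, he, hv, hc⟩ := h
  have h1 := hv.self_of_nhds
  have h2 : c = 0 := pow_eq_zero_iff two_ne_zero |>.1 hc
  rw [← e2.self_of_nhds, h1, h2, ← e1.self_of_nhds, S2_sq hl, add_zero, mul_pow]
  have h3 : e ^ 2 = 1 := by rw [pow_two, sign_sq he]
  rw [h3, one_mul]
  rfl

/-- An affine homeomorphism near a fixed point with a chart. -/
theorem aff_pow {φ φ' : ℂ → ℂ} {l : ℝ} (h : Aff Q φ φ' l) {s : ℂ} (hs : s ∈ Q.U)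
    (hfix : φ s = s) (hC : Chart Q s n ψ) :
    ∀ᶠ z in 𝓝 s, ψ (φ z) ^ n = S2 l (ψ z ^ n) := by
  have hn := hC.two_le
  have hn0 : n ≠ 0 := by omega
  have hcs : ContinuousAt φ s := h.cont.continuousAt (Q.isOpen.mem_nhds hs)
  have hφ : Tendsto φ (𝓝 s) (𝓝 s) := by
    have h1 : Tendsto φ (𝓝 s) (𝓝 (φ s)) := hcs
    rwa [hfix] at h1
  have hφ' : Tendsto φ (𝓝[≠] s) (𝓝[≠] s) := by
    refine tendsto_nhdsWithin_iff.2 ⟨hφ.mono_left nhdsWithin_le_nhds, ?_⟩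
    have h1 : ∀ᶠ z in 𝓝[≠] s, z ∈ Q.U := nhdsWithin_le_nhds (Q.isOpen.mem_nhds hs)
    filter_upwards [h1, self_mem_nhdsWithin] with z hz hzs hφz
    apply hzs
    have h2 : φ z = s := hφz
    rw [mem_singleton_iff, ← h.left z hz, h2, ← hfix, h.left s hs]
    exact hfix.symm
  have hgood : ∀ᶠ z in 𝓝[≠] s, Good Q n ψ z := by
    have h1 : ∀ᶠ z in 𝓝[≠] s, z ∈ Q.U := nhdsWithin_le_nhds (Q.isOpen.mem_nhds hs)
    have h2 : ∀ᶠ z in 𝓝[≠] s, AnalyticAt ℂ ψ z :=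
      nhdsWithin_le_nhds hC.analytic.eventually_analyticAt
    have h3 : ∀ᶠ z in 𝓝[≠] s, ψ z ≠ 0 :=
      hC.analytic.differentiableAt.hasDerivAt.eventually_ne hC.deriv_ne
    have h4 : ∀ᶠ z in 𝓝[≠] s, ∀ᶠ w in 𝓝 z,
        Q.q w = ((n : ℂ) / 2) ^ 2 * ψ w ^ (n - 2) * deriv ψ w ^ 2 :=
      nhdsWithin_le_nhds hC.eq.eventually_nhds
    filter_upwards [h1, h2, h3, isolated Q hs, h4] with z g1 g2 g3 g4 g5
    exact ⟨g1, g2, g3, g4, g5⟩
  have hall : ∀ᶠ z in 𝓝[≠] s, Good Q n ψ z ∧ Good Q n ψ (φ z) := hgood.and (hφ'.eventually hgood)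
  rw [eventually_nhdsWithin_iff] at hall
  obtain ⟨ρ, hρ, hball⟩ := Metric.eventually_nhds_iff_ball.1 hall
  set P : Set ℂ := Metric.ball s ρ \ {s} with hP
  have hPo : IsOpen P := Metric.isOpen_ball.sdiff isClosed_singleton
  have hPg : ∀ z ∈ P, Good Q n ψ z ∧ Good Q n ψ (φ z) := fun z hz => hball z hz.1 hz.2
  have hPc : ∀ z ∈ P, ContinuousAt φ z := fun z hz =>
    h.cont.continuousAt (Q.isOpen.mem_nhds (hPg z hz).1.mem)
  -- a point of `P`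
  have hs1 : s + (ρ / 2 : ℝ) ∈ P := by
    refine ⟨?_, ?_⟩
    · rw [Metric.mem_ball, dist_eq_norm, add_sub_cancel_left, Complex.norm_real,
        Real.norm_of_nonneg (by positivity)]
      linarith
    · intro h0
      rw [mem_singleton_iff, add_eq_left, Complex.ofReal_eq_zero] at h0
      linarith
  obtain ⟨k, hk⟩ := rel_exists h hn (hPg _ hs1).1 (hPg _ hs1).2
  -- `k` is the same for all points of `P`
  have hopen : IsOpen {z | ∀ᶠ z' in 𝓝 z, Rel ψ n φ l z' k} := isOpen_setOfPred_eventually_nhds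
  have hsub : P ⊆ {z | ∀ᶠ z' in 𝓝 z, Rel ψ n φ l z' k} := by
    refine (punct_preconnected s ρ).subset_of_closure_inter_subset hopen
      ⟨_, hs1, rel_nhds hk (hPc _ hs1)⟩ ?_
    rintro z ⟨hcl, hz⟩
    obtain ⟨k', hk'⟩ := rel_exists h hn (hPg z hz).1 (hPg z hz).2
    have h1 := rel_nhds hk' (hPc z hz)
    have h2 : ∃ᶠ z' in 𝓝 z, ∀ᶠ z'' in 𝓝 z', Rel ψ n φ l z'' k :=
      mem_closure_iff_frequently.1 hcl
    obtain ⟨z', h3, h4, h5⟩ := (h2.and_eventually (h1.and (hPo.mem_nhds hz))).exists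
    have h6 : k = k' := rel_unique h.pos hn (hPg z' h5).1 (hPg z' h5).2.ne (hPc z' h5)
      h3.self_of_nhds h4
    rw [h6]
    exact h1
  have hrel : ∀ z ∈ P, Rel ψ n φ l z k := fun z hz => (hsub hz).self_of_nhds
  -- `k = 0`
  have hE : Tendsto (fun z => 2 * ‖ψ (φ z)‖ ^ n + 2 * (l + l⁻¹) ^ 2 * ‖ψ z‖ ^ n) (𝓝[≠] s)
      (𝓝 0) := by
    have h1 : Tendsto (fun z => ψ z) (𝓝 s) (𝓝 0) := by
      have h2 : Tendsto ψ (𝓝 s) (𝓝 (ψ s)) := hC.analytic.continuousAt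
      rwa [hC.zero] at h2
    have h2 : Tendsto (fun z => ‖ψ z‖ ^ n) (𝓝 s) (𝓝 0) := by
      have h3 := (h1.norm).pow n
      rwa [norm_zero, zero_pow hn0] at h3
    have h3 : Tendsto (fun z => ‖ψ (φ z)‖ ^ n) (𝓝 s) (𝓝 0) := h2.comp hφ
    have h4 := (h3.const_mul 2).add (h2.const_mul (2 * (l + l⁻¹) ^ 2))
    rw [mul_zero, mul_zero, add_zero] at h4
    exact h4.mono_left nhdsWithin_le_nhds
  have hk0 : k = 0 := by
    have h1 : ∀ᶠ z in 𝓝[≠] s, ‖k‖ ≤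
        2 * ‖ψ (φ z)‖ ^ n + 2 * (l + l⁻¹) ^ 2 * ‖ψ z‖ ^ n := by
      have h2 : ∀ᶠ z in 𝓝[≠] s, z ∈ Metric.ball s ρ :=
        nhdsWithin_le_nhds (Metric.ball_mem_nhds s hρ)
      filter_upwards [h2, self_mem_nhdsWithin] with z hz hzs
      exact rel_norm h.pos (hrel z ⟨hz, hzs⟩)
    have h2 : ‖k‖ ≤ 0 := ge_of_tendsto hE h1
    exact norm_le_zero_iff.1 h2
  filter_upwards [Metric.ball_mem_nhds s hρ] with z hz
  rcases eq_or_ne z s with rfl | hzs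
  · rw [hfix, hC.zero, zero_pow hn0, S2_zero]
  · have h1 := hrel z ⟨hz, hzs⟩
    rw [hk0] at h1
    exact rel_zero h.pos h1

end Pool.Agent.ANO2.Cone
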