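import Pool.Agent.ANO2.Defs

/-!
# ANO phase 2, Cone2: a quadratic differential has a zero

Suppose that `q z ≠ 0` for all `z : ℍ`.  The function `Φ z = |q z| (im z)²` on `ℍ` is positive,
continuous and `Γ`-invariant (`h.equivar` and `im (γ z) = im z / |c z + d|²`), so it attains its
minimum over `ℍ` at a point `z0` of the compact set of `S.cocompact`.  Let `y0 = im z0`.  The
function `G z = 1 / (q z (z - conj z0)⁴)` is holomorphic on the upper half plane, and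
`|z - conj z0|² = |z - z0|² + 4 y y0 ≥ 4 y y0`, so
`|G z| ≤ 1 / (|q z| 16 y² y0²) = 1 / (16 y0² Φ z) ≤ 1 / (16 y0² Φ z0) = |G z0|`.  By the maximum
principle (`Complex.eqOn_of_isPreconnected_of_isMaxOn_norm`) `G` is constant, so the
first inequality is an equality for all `z`: `z = z0`, a contradiction.
-/

set_option autoImplicit false

open Set Filter Topology
open scoped UpperHalfPlane MatrixGroups

namespace Pool.Agent.ANO2.Cone

open Pool.Agent.ANO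

private lemma im_smul_sl (g : SL(2, ℝ)) (z : ℍ) :
    (g • z).im = z.im / Complex.normSq ((g 1 0 : ℝ) * (z : ℂ) + (g 1 1 : ℝ)) := by
  have h := UpperHalfPlane.im_smul_eq_div_normSq
    (Matrix.SpecialLinearGroup.mapGL ℝ g : Matrix.GeneralLinearGroup (Fin 2) ℝ) z
  have hd : (Matrix.SpecialLinearGroup.mapGL ℝ g :
      Matrix.GeneralLinearGroup (Fin 2) ℝ).det.val = 1 := by simp
  rw [hd, abs_one, one_mul] at h
  exact h

private lemma phi_invariant {S : ClosedSurface} {q : ℂ → ℂ} (h : IsQuadDiff S q)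
    (γ : SL(2, ℝ)) (hγ : γ ∈ S.Γ) (z : ℍ) :
    ‖q ((γ • z : ℍ) : ℂ)‖ * (γ • z).im ^ 2 = ‖q (z : ℂ)‖ * z.im ^ 2 := by
  have hd : ((γ 1 0 : ℝ) * (z : ℂ) + (γ 1 1 : ℝ)) ≠ 0 := by
    have h1 := UpperHalfPlane.denom_ne_zero
      (Matrix.SpecialLinearGroup.mapGL ℝ γ : Matrix.GeneralLinearGroup (Fin 2) ℝ) z
    exact h1
  rw [h.equivar γ hγ z, im_smul_sl γ z, norm_mul, norm_pow, Complex.normSq_eq_norm_sq]
  generalize hx : ((γ 1 0 : ℝ) * (z : ℂ) + (γ 1 1 : ℝ)) = d at *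
  have hn : ‖d‖ ≠ 0 := norm_ne_zero_iff.mpr hd
  generalize ‖d‖ = a at *
  generalize ‖q (z : ℂ)‖ = b at *
  field_simp

theorem exists_zero {S : ClosedSurface} {q : ℂ → ℂ} (h : IsQuadDiff S q) : ∃ s : ℍ, q s = 0 := by
  by_contra hne
  push Not at hne
  have hqc : Continuous fun z : ℍ => ‖q (z : ℂ)‖ * z.im ^ 2 := by
    refine Continuous.mul ?_ (UpperHalfPlane.continuous_im.pow 2)
    refine Continuous.norm ?_
    exact h.holo.continuousOn.comp_continuous UpperHalfPlane.continuous_coe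
      (fun z => z.im_pos)
  obtain ⟨K, hK, hcov⟩ := S.cocompact
  have hKne : K.Nonempty := by
    obtain ⟨γ, -, hγ⟩ := hcov UpperHalfPlane.I
    exact ⟨_, hγ⟩
  obtain ⟨z0, -, hmin⟩ := hK.exists_isMinOn hKne hqc.continuousOn
  have hmin' : ∀ z : ℍ, ‖q (z0 : ℂ)‖ * z0.im ^ 2 ≤ ‖q (z : ℂ)‖ * z.im ^ 2 := by
    intro z
    obtain ⟨γ, hγ, hz⟩ := hcov z
    rw [← phi_invariant h γ hγ z]
    exact hmin hz
  have hy0 : 0 < (z0 : ℂ).im := z0.im_pos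
  have hq0 : 0 < ‖q (z0 : ℂ)‖ := norm_pos_iff.mpr (hne z0)
  have hsq : ∀ z : ℂ, 0 < z.im →
      ‖z - (starRingEnd ℂ) (z0 : ℂ)‖ ^ 2 =
        (z.re - (z0 : ℂ).re) ^ 2 + (z.im + (z0 : ℂ).im) ^ 2 := by
    intro z _
    rw [← Complex.normSq_eq_norm_sq, Complex.normSq_apply]
    simp only [Complex.sub_re, Complex.sub_im, Complex.conj_re, Complex.conj_im]
    ring
  have hpos : ∀ z : ℂ, 0 < z.im → z - (starRingEnd ℂ) (z0 : ℂ) ≠ 0 := by
    intro z hz h0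
    have h1 := hsq z hz
    rw [h0, norm_zero] at h1
    have h2 : 0 < (z.im + (z0 : ℂ).im) ^ 2 := by positivity
    have h3 := sq_nonneg (z.re - (z0 : ℂ).re)
    nlinarith
  have hqne : ∀ z : ℂ, 0 < z.im → q z ≠ 0 := fun z hz => hne ⟨z, hz⟩
  set G : ℂ → ℂ := fun z => (q z * (z - (starRingEnd ℂ) (z0 : ℂ)) ^ 4)⁻¹ with hG
  have hGd : DifferentiableOn ℂ G {z : ℂ | 0 < z.im} := by
    refine DifferentiableOn.inv ?_ ?_
    · refine h.holo.mul ?_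
      exact ((differentiable_id.sub_const _).pow 4).differentiableOn
    · intro z hz
      exact mul_ne_zero (hqne z hz) (pow_ne_zero 4 (hpos z hz))
  have hGn : ∀ z : ℂ, ‖G z‖ = (‖q z‖ * (‖z - (starRingEnd ℂ) (z0 : ℂ)‖ ^ 2) ^ 2)⁻¹ := by
    intro z
    simp only [hG, norm_inv, norm_mul, norm_pow]
    ring_nf
  have hle : ∀ z : ℂ, 0 < z.im → ‖G z‖ ≤ ‖G (z0 : ℂ)‖ := by
    intro z hz
    rw [hGn, hGn, hsq z hz, hsq _ hy0]
    have h1 := hmin' ⟨z, hz⟩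
    have h1' : ‖q (z0 : ℂ)‖ * (z0 : ℂ).im ^ 2 ≤ ‖q z‖ * z.im ^ 2 := h1
    have hqz : 0 < ‖q z‖ := norm_pos_iff.mpr (hqne z hz)
    apply inv_anti₀
    · positivity
    have h2 : 4 * (z.im * (z0 : ℂ).im) ≤
        (z.re - (z0 : ℂ).re) ^ 2 + (z.im + (z0 : ℂ).im) ^ 2 := by
      nlinarith [sq_nonneg (z.re - (z0 : ℂ).re), sq_nonneg (z.im - (z0 : ℂ).im)]
    have h3 : (4 * (z.im * (z0 : ℂ).im)) ^ 2 ≤
        ((z.re - (z0 : ℂ).re) ^ 2 + (z.im + (z0 : ℂ).im) ^ 2) ^ 2 := by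
      apply pow_le_pow_left₀ (by positivity) h2
    calc ‖q (z0 : ℂ)‖ * (((z0 : ℂ).re - (z0 : ℂ).re) ^ 2 +
          ((z0 : ℂ).im + (z0 : ℂ).im) ^ 2) ^ 2
        = (16 * (z0 : ℂ).im ^ 2) * (‖q (z0 : ℂ)‖ * (z0 : ℂ).im ^ 2) := by ring
      _ ≤ (16 * (z0 : ℂ).im ^ 2) * (‖q z‖ * z.im ^ 2) :=
          mul_le_mul_of_nonneg_left h1' (by positivity)
      _ = ‖q z‖ * (4 * (z.im * (z0 : ℂ).im)) ^ 2 := by ring
      _ ≤ ‖q z‖ * ((z.re - (z0 : ℂ).re) ^ 2 + (z.im + (z0 : ℂ).im) ^ 2) ^ 2 :=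
          mul_le_mul_of_nonneg_left h3 hqz.le
  have hopen : IsOpen {z : ℂ | 0 < z.im} := isOpen_lt continuous_const Complex.continuous_im
  have hconn : IsPreconnected {z : ℂ | 0 < z.im} :=
    (convex_halfSpace_im_gt 0).isPreconnected
  have hconst := Complex.eqOn_of_isPreconnected_of_isMaxOn_norm (f := G) hconn hopen hGd
    (c := (z0 : ℂ)) hy0 (fun z hz => hle z hz)
  have hz1 : 0 < ((z0 : ℂ) + 1).im := by
    simpa using hy0
  have h1 : G ((z0 : ℂ) + 1) = G (z0 : ℂ) := hconst hz1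
  have h2 : ‖G ((z0 : ℂ) + 1)‖ = ‖G (z0 : ℂ)‖ := by rw [h1]
  rw [hGn, hGn, hsq _ hz1, hsq _ hy0] at h2
  have h3 := inv_injective h2
  have h4 := hmin' ⟨(z0 : ℂ) + 1, hz1⟩
  have h4' : ‖q (z0 : ℂ)‖ * (z0 : ℂ).im ^ 2 ≤
      ‖q ((z0 : ℂ) + 1)‖ * ((z0 : ℂ) + 1).im ^ 2 := h4
  have him : ((z0 : ℂ) + 1).im = (z0 : ℂ).im := by simp
  have hre : ((z0 : ℂ) + 1).re = (z0 : ℂ).re + 1 := by simp
  rw [him] at h4'
  rw [him, hre] at h3
  generalize ‖q ((z0 : ℂ) + 1)‖ = b at *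
  generalize ‖q (z0 : ℂ)‖ = a at *
  generalize (z0 : ℂ).im = y at *
  generalize (z0 : ℂ).re = x at *
  have hab : a ≤ b := le_of_mul_le_mul_right h4' (by positivity)
  have hb : 0 < b := lt_of_lt_of_le hq0 hab
  have h5 : b * (1 + 4 * y ^ 2) ^ 2 = a * (4 * y ^ 2) ^ 2 := by
    calc b * (1 + 4 * y ^ 2) ^ 2 = b * ((x + 1 - x) ^ 2 + (y + y) ^ 2) ^ 2 := by ring
      _ = a * ((x - x) ^ 2 + (y + y) ^ 2) ^ 2 := h3
      _ = a * (4 * y ^ 2) ^ 2 := by ring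
  have h6 : a * (4 * y ^ 2) ^ 2 ≤ b * (4 * y ^ 2) ^ 2 :=
    mul_le_mul_of_nonneg_right hab (by positivity)
  have h7 : b * (4 * y ^ 2) ^ 2 < b * (1 + 4 * y ^ 2) ^ 2 := by
    apply mul_lt_mul_of_pos_left _ hb
    apply pow_lt_pow_left₀ (by linarith) (by positivity) (by norm_num)
  linarith

end Pool.Agent.ANO2.Cone
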