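import Pool.Agent.ANO2.Cone.RotC
import Pool.Agent.ANO2.Cone.Lift
import Pool.Agent.ANO2.Cone.Zero

/-!
# ANO phase 2, Cone2: a lift which fixes a singularity and the quadrants there

* `chart_three`: at a zero of `q` the chart has `n ≥ 3`.
* `cone_power`: a power of a lift `T` which fixes the zero `s` (`exists_fixing_lift`) fixes the
  quadrants at `s`, and so do its powers (`aff_pow`, `rot_one`).
-/

set_option autoImplicit false

open Set Filter Topology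
open scoped UpperHalfPlane MatrixGroups

namespace Pool.Agent.ANO2.Cone

open Pool.Agent.ANO Geo2

variable {S : SurfaceMap} {q : ℂ → ℂ} {l : ℝ} {n : ℕ} {ψ : ℂ → ℂ}

theorem chart_three {Q : QD} {s : ℂ} (hC : Chart Q s n ψ) (hs : Q.q s = 0) : 3 ≤ n := by
  have h2 := hC.two_le
  rcases Nat.eq_or_lt_of_le h2 with h3 | h3
  · exfalso
    subst h3
    have h4 := hC.eq.self_of_nhds
    rw [hs] at h4
    have h5 : deriv ψ s ^ 2 ≠ 0 := pow_ne_zero _ hC.deriv_ne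
    apply h5
    simpa using h4.symm
  · exact h3

/-- The powers of the lift `H` of `f ^ m` fix the zero `s` and the quadrants at `s`. -/
theorem cone_power (h : IsPA S q l) {s : ℍ} (hs : q s = 0)
    (hC : Chart (qd h.quad) s n ψ) : ∃ m, 0 < m ∧ ∃ H : ℍ → ℍ, IsLift S m H ∧ H s = s ∧
      ∀ j : ℕ, 0 < j → ConeFixed s n H^[j] ∧ ∃ L : ℝ, 1 < L ∧
        ∀ᶠ z : ℍ in 𝓝 s, ∃ ω : ℂ, |ω.arg| < Real.pi / n ∧ ψ (H^[j] z : ℂ) = ω * ψ (z : ℂ) ∧
          ∀ v : ℂ, v ^ 2 = ψ (z : ℂ) ^ n → (ω * ψ (z : ℂ)) ^ n = stretch L v ^ 2 := by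
  obtain ⟨m, hm, T, hT, hTs⟩ := exists_fixing_lift h hs
  have hn : 0 < n := by
    have := hC.two_le
    omega
  have hL : 1 < l ^ m := one_lt_pow₀ h.one_lt hm.ne'
  have hL0 : 0 < l ^ m := by linarith
  obtain ⟨φ', hφ⟩ := isLift_aff h hT
  have hfix : lift T (s : ℂ) = s := by rw [lift_coe, hTs]
  have h1 := coe_ev (aff_pow hφ (mem_qd h.quad s) hfix hC)
  have h2 : ∀ᶠ z : ℍ in 𝓝 s, ψ (T z : ℂ) ^ n = S2 (l ^ m) (ψ (z : ℂ) ^ n) := by
    filter_upwards [h1] with z hz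
    rw [lift_coe] at hz
    exact hz
  have h3 : ∀ {j : ℕ}, 0 < j → Rot s n ψ (((l ^ m) ^ n) ^ j) 1 (T^[n])^[j] := fun hj =>
    rot_one hn hC.analytic hC.zero hC.deriv_ne hL0 (isLift_continuous hT) hTs h2 hj
  refine ⟨m * n, Nat.mul_pos hm hn, T^[n], isLift_iterate hT n,
    Function.iterate_fixed hTs n, fun j hj => ?_⟩
  have hLj : 1 < ((l ^ m) ^ n) ^ j := one_lt_pow₀ (one_lt_pow₀ hL hn.ne') hj.ne'
  exact ⟨coneFixed_of_rot hn hC.analytic hC.zero hC.deriv_ne hLj (h3 hj),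
    ((l ^ m) ^ n) ^ j, hLj, local_of_rot hn hC.analytic hC.zero hC.deriv_ne hLj (h3 hj)⟩

end Pool.Agent.ANO2.Cone
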