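import Pool.Agent.ANO2.Iface

/-!
# ANO phase 2, Cone2: the sectors at an `n`-prong point (port of `Pool/Agent/ANO/Cone/Sector.lean`)

`Sec n 0 e` is the open sector `(2 e - 1) π / n < arg ζ < (2 e + 1) π / n`, `Sec n 1 e` the open
sector `2 e π / n < arg ζ < (2 e + 2) π / n`, `e : ZMod n`.
-/

set_option autoImplicit false

open Set Filter Topology
open scoped UpperHalfPlane

namespace Pool.Agent.ANO2.Cone

open Pool.Agent.ANO

/-- the sectors -/
def Sec (n τ : ℕ) (e : ZMod n) : Set ℂ :=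
  {ζ | ζ ≠ 0 ∧ ∃ (θ : ℝ) (k : ℤ), ζ = ‖ζ‖ * Complex.exp (θ * Complex.I) ∧
    (k : ZMod n) = e ∧ |n * θ - (2 * k + τ) * Real.pi| < Real.pi}

variable {n : ℕ}

/-! ### Auxiliary lemmas -/

private theorem pow_polar {ζ : ℂ} {θ : ℝ} (h : ζ = ‖ζ‖ * Complex.exp (θ * Complex.I)) :
    ζ ^ n = ((‖ζ‖ ^ n : ℝ) : ℂ) * Complex.exp ((n * θ : ℝ) * Complex.I) := by
  conv_lhs => rw [h]
  rw [mul_pow, ← Complex.exp_nat_mul]
  push_cast
  congr 2
  ring

private theorem pow_im {ζ : ℂ} {θ : ℝ} (h : ζ = ‖ζ‖ * Complex.exp (θ * Complex.I)) :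
    (ζ ^ n).im = ‖ζ‖ ^ n * Real.sin (n * θ) := by
  rw [pow_polar h, Complex.im_ofReal_mul, Complex.exp_ofReal_mul_I_im]

private theorem polar_arg (ζ : ℂ) : ζ = ‖ζ‖ * Complex.exp (ζ.arg * Complex.I) :=
  (Complex.norm_mul_exp_arg_mul_I ζ).symm

/-- two arguments differ by a multiple of `2 π` -/
private theorem polar_unique {ζ : ℂ} (h0 : ζ ≠ 0) {θ θ' : ℝ}
    (h : ζ = ‖ζ‖ * Complex.exp (θ * Complex.I)) (h' : ζ = ‖ζ‖ * Complex.exp (θ' * Complex.I)) :
    ∃ j : ℤ, θ' = θ + j * (2 * Real.pi) := by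
  have hn : (‖ζ‖ : ℂ) ≠ 0 := by
    rw [Ne, Complex.ofReal_eq_zero, norm_eq_zero]
    exact h0
  have h1 : Complex.exp (θ' * Complex.I) = Complex.exp (θ * Complex.I) :=
    mul_left_cancel₀ hn (h'.symm.trans h)
  obtain ⟨j, hj⟩ := Complex.exp_eq_exp_iff_exists_int.1 h1
  refine ⟨j, ?_⟩
  have h2 := congrArg Complex.im hj
  simpa using h2

private theorem polar_mul {ζ ω : ℂ} {θ φ : ℝ} (h : ζ = ‖ζ‖ * Complex.exp (θ * Complex.I))
    (h' : ω = ‖ω‖ * Complex.exp (φ * Complex.I)) :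
    ω * ζ = ‖ω * ζ‖ * Complex.exp ((θ + φ : ℝ) * Complex.I) := by
  conv_lhs => rw [h, h']
  rw [norm_mul]
  push_cast
  rw [add_mul, Complex.exp_add]
  ring

private theorem slit_exp {r x : ℝ} (hr : 0 < r) :
    ((r : ℝ) : ℂ) * Complex.exp ((x : ℝ) * Complex.I) ∈ Complex.slitPlane ↔
      ∃ k : ℤ, |x - 2 * k * Real.pi| < Real.pi := by
  have hpi := Real.pi_pos
  have hs : ∀ k : ℤ, Real.cos (x - 2 * k * Real.pi) = Real.cos x ∧
      Real.sin (x - 2 * k * Real.pi) = Real.sin x := fun k => by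
    rw [show x - 2 * k * Real.pi = x - k * (2 * Real.pi) by ring]
    exact ⟨Real.cos_sub_int_mul_two_pi x k, Real.sin_sub_int_mul_two_pi x k⟩
  rw [Complex.mem_slitPlane_iff, Complex.re_ofReal_mul, Complex.exp_ofReal_mul_I_re,
    Complex.im_ofReal_mul, Complex.exp_ofReal_mul_I_im]
  constructor
  · intro h
    refine ⟨round (x / (2 * Real.pi)), ?_⟩
    have h1 : |x / (2 * Real.pi) - round (x / (2 * Real.pi))| ≤ 1 / 2 := abs_sub_round _
    set k := round (x / (2 * Real.pi)) with hk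
    have h2 : x - 2 * k * Real.pi = (x / (2 * Real.pi) - k) * (2 * Real.pi) := by
      field_simp
    have h3 : |x - 2 * k * Real.pi| ≤ Real.pi := by
      rw [h2, abs_mul, abs_of_pos (by positivity : (0 : ℝ) < 2 * Real.pi)]
      nlinarith
    refine lt_of_le_of_ne h3 fun h4 => ?_
    have h5 : Real.cos x = -1 := by
      rw [← (hs k).1, ← Real.cos_abs, h4, Real.cos_pi]
    have h6 : Real.sin x = 0 := by
      have := Real.sin_sq_add_cos_sq x
      rw [h5] at this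
      nlinarith
    rcases h with h | h
    · rw [h5] at h
      linarith
    · apply h
      rw [h6, mul_zero]
  · rintro ⟨k, hk⟩
    rw [← (hs k).1, ← (hs k).2]
    set y := x - 2 * k * Real.pi with hy
    rcases eq_or_ne y 0 with h0 | h0
    · left
      rw [h0, Real.cos_zero, mul_one]
      exact hr
    · right
      refine mul_ne_zero hr.ne' fun h1 => h0 ?_
      exact (Real.sin_eq_zero_iff_of_lt_of_lt (abs_lt.1 hk).1 (abs_lt.1 hk).2).1 h1

private theorem slit_pow (τ : ℕ) {ζ : ℂ} (h0 : ζ ≠ 0) {θ : ℝ}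
    (h : ζ = ‖ζ‖ * Complex.exp (θ * Complex.I)) :
    (-1) ^ τ * ζ ^ n ∈ Complex.slitPlane ↔
      ∃ k : ℤ, |n * θ - (2 * k + τ) * Real.pi| < Real.pi := by
  have h1 : (-1 : ℂ) ^ τ * ζ ^ n =
      ((‖ζ‖ ^ n : ℝ) : ℂ) * Complex.exp (((n * θ - τ * Real.pi : ℝ) : ℂ) * Complex.I) := by
    have h2 : ((n * θ - τ * Real.pi : ℝ) : ℂ) * Complex.I =
        ((n * θ : ℝ) : ℂ) * Complex.I - ((τ : ℕ) : ℂ) * (Real.pi * Complex.I) := by
      push_cast
      ring
    rw [h2, Complex.exp_sub, Complex.exp_nat_mul, Complex.exp_pi_mul_I, pow_polar h]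
    have h3 : ((-1 : ℂ) ^ τ)⁻¹ = (-1) ^ τ := by
      rw [← inv_pow]
      norm_num
    rw [div_eq_mul_inv, h3]
    ring
  rw [h1, slit_exp (pow_pos (norm_pos_iff.2 h0) n)]
  refine exists_congr fun k => ?_
  rw [show n * θ - τ * Real.pi - 2 * k * Real.pi = n * θ - (2 * k + τ) * Real.pi by ring]

private theorem sin_shift (x : ℝ) (k : ℤ) (τ : ℕ) :
    Real.sin (x - (2 * k + τ) * Real.pi) = (-1) ^ τ * Real.sin x := by
  rw [show x - (2 * k + τ) * Real.pi = (x - k * (2 * Real.pi)) - τ * Real.pi by ring,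
    Real.sin_sub_nat_mul_pi, Real.sin_sub_int_mul_two_pi]

private theorem sq_slit (w : ℂ) : w ^ 2 ∈ Complex.slitPlane ↔ w.re ≠ 0 := by
  rw [Complex.mem_slitPlane_iff, pow_two, Complex.mul_re, Complex.mul_im]
  constructor
  · rintro (h | h) h0
    · rw [h0] at h
      nlinarith [sq_nonneg w.im]
    · apply h
      rw [h0]
      ring
  · intro h
    by_cases h1 : w.im = 0
    · left
      rw [h1]
      have : 0 < w.re * w.re := mul_self_pos.2 h
      linarith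
    · right
      have : w.re * w.im + w.im * w.re = 2 * (w.re * w.im) := by ring
      rw [this]
      exact mul_ne_zero two_ne_zero (mul_ne_zero h h1)

private theorem neg_sq_slit (w : ℂ) : -w ^ 2 ∈ Complex.slitPlane ↔ w.im ≠ 0 := by
  have h := sq_slit (Complex.I * w)
  rw [mul_pow, Complex.I_sq, neg_one_mul, Complex.mul_re, Complex.I_re, Complex.I_im, zero_mul,
    zero_sub, one_mul, neg_ne_zero] at h
  exact h

/-! ### The theorems -/

theorem sec_open (τ : ℕ) (e : ZMod n) : IsOpen (Sec n τ e) := by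
  rw [isOpen_iff_mem_nhds]
  rintro ζ₀ ⟨h0, θ₀, k, h1, h2, h3⟩
  have hc : ContinuousAt (fun ζ : ℂ => (ζ / ζ₀).arg) ζ₀ := by
    have h4 : ContinuousAt Complex.arg (ζ₀ / ζ₀) := by
      rw [div_self h0]
      exact Complex.continuousAt_arg Complex.one_mem_slitPlane
    exact ContinuousAt.comp (f := fun ζ : ℂ => ζ / ζ₀) h4
      (continuousAt_id.div_const ζ₀)
  have hd : ContinuousAt (fun ζ : ℂ =>
      |n * (θ₀ + (ζ / ζ₀).arg) - (2 * k + τ) * Real.pi|) ζ₀ :=
    (((continuousAt_const.add hc).const_mul _).sub continuousAt_const).abs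
  have he : |n * (θ₀ + (ζ₀ / ζ₀).arg) - (2 * k + τ) * Real.pi| < Real.pi := by
    rw [div_self h0, Complex.arg_one, add_zero]
    exact h3
  filter_upwards [hd.eventually_lt_const he, eventually_ne_nhds h0] with ζ h4 h5
  refine ⟨h5, θ₀ + (ζ / ζ₀).arg, k, ?_, h2, h4⟩
  have h6 := polar_mul h1 (polar_arg (ζ / ζ₀))
  rw [div_mul_cancel₀ _ h0] at h6
  exact h6

theorem sec_disj {τ : ℕ} {e e' : ZMod n} {ζ : ℂ} (h : ζ ∈ Sec n τ e)
    (h' : ζ ∈ Sec n τ e') : e = e' := by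
  obtain ⟨h0, θ, k, h1, h2, h3⟩ := h
  obtain ⟨_, θ', k', h1', h2', h3'⟩ := h'
  obtain ⟨j, hj⟩ := polar_unique h0 h1 h1'
  have hpi := Real.pi_pos
  rw [hj] at h3'
  rw [abs_lt] at h3 h3'
  have h4 : ((k : ℝ) - k' + n * j) * Real.pi < 1 * Real.pi := by nlinarith
  have h5 : (-1 : ℝ) * Real.pi < ((k : ℝ) - k' + n * j) * Real.pi := by nlinarith
  have h6 := lt_of_mul_lt_mul_right h4 hpi.le
  have h7 := lt_of_mul_lt_mul_right h5 hpi.le
  have h8 : k - k' + n * j < 1 := by exact_mod_cast h6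
  have h9 : -1 < k - k' + n * j := by exact_mod_cast h7
  have h10 : k' = k + (n : ℤ) * j := by omega
  rw [← h2, ← h2', h10]
  push_cast
  rw [ZMod.natCast_self, zero_mul, add_zero]

theorem sec_slit {τ : ℕ} {e : ZMod n} {ζ : ℂ} (h : ζ ∈ Sec n τ e) :
    (-1) ^ τ * ζ ^ n ∈ Complex.slitPlane := by
  obtain ⟨h0, θ, k, h1, -, h3⟩ := h
  exact (slit_pow τ h0 h1).2 ⟨k, h3⟩

theorem sec_cover (hn : 0 < n) {τ : ℕ} {ζ : ℂ} (h : (-1) ^ τ * ζ ^ n ∈ Complex.slitPlane) :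
    ∃ e, ζ ∈ Sec n τ e := by
  have h0 : ζ ≠ 0 := by
    rintro rfl
    rw [zero_pow hn.ne', mul_zero] at h
    exact Complex.zero_notMem_slitPlane h
  obtain ⟨k, hk⟩ := (slit_pow τ h0 (polar_arg ζ)).1 h
  exact ⟨k, h0, ζ.arg, k, polar_arg ζ, rfl, hk⟩

theorem sec_adj {e e' : ZMod n} {ζ : ℂ} (h : ζ ∈ Sec n 0 e) (h' : ζ ∈ Sec n 1 e') :
    Core.Adj e e' := by
  obtain ⟨h0, θ, k, h1, h2, h3⟩ := h
  obtain ⟨_, θ', k', h1', h2', h3'⟩ := h'
  obtain ⟨j, hj⟩ := polar_unique h0 h1 h1'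
  have hpi := Real.pi_pos
  rw [hj] at h3'
  rw [abs_lt] at h3 h3'
  push_cast at h3 h3'
  have h4 : (2 * ((k : ℝ) - k' + n * j) - 1) * Real.pi < 2 * Real.pi := by nlinarith
  have h5 : (-2 : ℝ) * Real.pi < (2 * ((k : ℝ) - k' + n * j) - 1) * Real.pi := by nlinarith
  have h6 := lt_of_mul_lt_mul_right h4 hpi.le
  have h7 := lt_of_mul_lt_mul_right h5 hpi.le
  have h8 : 2 * (k - k' + n * j) - 1 < 2 := by exact_mod_cast h6
  have h9 : -2 < 2 * (k - k' + n * j) - 1 := by exact_mod_cast h7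
  have h10 : k' = k + (n : ℤ) * j ∨ k' + 1 = k + (n : ℤ) * j := by omega
  rcases h10 with h10 | h10
  · left
    rw [← h2, ← h2', h10]
    push_cast
    rw [ZMod.natCast_self, zero_mul, add_zero]
  · right
    have h12 := congrArg (fun z : ℤ => (z : ZMod n)) h10
    push_cast at h12
    rw [ZMod.natCast_self, zero_mul, add_zero, h2, h2'] at h12
    exact h12

private theorem stretch_re {L : ℝ} (hL : 0 < L) (v : ℂ) : (stretch L v).re ≠ 0 ↔ v.re ≠ 0 := by
  simp [stretch, hL.ne']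

private theorem stretch_im {L : ℝ} (hL : 0 < L) (v : ℂ) : (stretch L v).im ≠ 0 ↔ v.im ≠ 0 := by
  simp [stretch, hL.ne']

theorem sec_inv (hn : 0 < n) {τ : ℕ} (hτ : τ = 0 ∨ τ = 1) {e : ZMod n} {ζ ω : ℂ} {L : ℝ}
    (hL : 0 < L) (hω : |ω.arg| < Real.pi / n)
    (h : ∀ v : ℂ, v ^ 2 = ζ ^ n → (ω * ζ) ^ n = stretch L v ^ 2) :
    ζ ∈ Sec n τ e ↔ ω * ζ ∈ Sec n τ e := by
  have hpi := Real.pi_pos
  have hn' : (0 : ℝ) < n := Nat.cast_pos.2 hn
  obtain ⟨v, hv⟩ : ∃ v : ℂ, v ^ 2 = ζ ^ n := IsAlgClosed.exists_pow_nat_eq _ (by norm_num)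
  have hv' := h v hv
  -- the imaginary parts agree
  have him : ((ω * ζ) ^ n).im = (ζ ^ n).im := by
    rw [hv', ← hv, pow_two, pow_two, Complex.mul_im, Complex.mul_im]
    have h0 : L ≠ 0 := hL.ne'
    simp only [stretch]
    field_simp
  -- the slit plane condition
  have hslit : (-1) ^ τ * (ω * ζ) ^ n ∈ Complex.slitPlane ↔
      (-1) ^ τ * ζ ^ n ∈ Complex.slitPlane := by
    rw [hv', ← hv]
    rcases hτ with rfl | rfl
    · rw [pow_zero, one_mul, one_mul, sq_slit, sq_slit, stretch_re hL]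
    · rw [pow_one, neg_one_mul, neg_one_mul, neg_sq_slit, neg_sq_slit, stretch_im hL]
  have key : ∀ e' : ZMod n, ζ ∈ Sec n τ e' → ω * ζ ∈ Sec n τ e' := by
    intro e' hζ
    have hs := hslit.2 (sec_slit hζ)
    obtain ⟨h0, θ, k, h1, h2, h3⟩ := hζ
    have hne : ω * ζ ≠ 0 := by
      intro h4
      rw [h4, zero_pow hn.ne', mul_zero] at hs
      exact Complex.zero_notMem_slitPlane hs
    have h4 := polar_mul h1 (polar_arg ω)
    refine ⟨hne, θ + ω.arg, k, h4, h2, ?_⟩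
    obtain ⟨j, hj⟩ := (slit_pow τ hne h4).1 hs
    have h5 : |n * ω.arg| < Real.pi := by
      rw [abs_mul, Nat.abs_cast]
      calc (n : ℝ) * |ω.arg| < n * (Real.pi / n) := mul_lt_mul_of_pos_left hω hn'
        _ = Real.pi := by field_simp
    have him' : ‖ω * ζ‖ ^ n * Real.sin (n * (θ + ω.arg) - (2 * k + τ) * Real.pi) =
        ‖ζ‖ ^ n * Real.sin (n * θ - (2 * k + τ) * Real.pi) := by
      rw [pow_im h4, pow_im h1] at him
      rw [sin_shift, sin_shift]
      linear_combination (-1) ^ τ * him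
    set x := n * θ - (2 * k + τ) * Real.pi with hx
    set y := n * (θ + ω.arg) - (2 * k + τ) * Real.pi with hy
    have hxy : y = x + n * ω.arg := by
      rw [hx, hy]
      ring
    have hn1 : (0 : ℝ) < ‖ω * ζ‖ ^ n := pow_pos (norm_pos_iff.2 hne) _
    have hn2 : (0 : ℝ) < ‖ζ‖ ^ n := pow_pos (norm_pos_iff.2 h0) _
    rw [abs_lt] at h3 h5
    -- `y` is not an odd multiple of `π`
    have hodd : y ≠ Real.pi ∧ y ≠ -Real.pi := by
      have hj' : |y - 2 * ((j - k : ℤ) : ℝ) * Real.pi| < Real.pi := by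
        push_cast
        rw [show y - 2 * ((j : ℝ) - k) * Real.pi =
          n * (θ + ω.arg) - (2 * j + τ) * Real.pi by rw [hy]; ring]
        exact hj
      generalize (j - k : ℤ) = i at hj'
      rw [abs_lt] at hj'
      constructor
      · intro h6
        rw [h6] at hj'
        have h7 : (-1 : ℝ) * Real.pi < (1 - 2 * i) * Real.pi := by nlinarith
        have h8 : (1 - 2 * (i : ℝ)) * Real.pi < 1 * Real.pi := by nlinarith
        have h9 := lt_of_mul_lt_mul_right h7 hpi.le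
        have h10 := lt_of_mul_lt_mul_right h8 hpi.le
        have h11 : -1 < 1 - 2 * i := by exact_mod_cast h9
        have h12 : 1 - 2 * i < 1 := by exact_mod_cast h10
        omega
      · intro h6
        rw [h6] at hj'
        have h7 : (-1 : ℝ) * Real.pi < (-1 - 2 * i) * Real.pi := by nlinarith
        have h8 : (-1 - 2 * (i : ℝ)) * Real.pi < 1 * Real.pi := by nlinarith
        have h9 := lt_of_mul_lt_mul_right h7 hpi.le
        have h10 := lt_of_mul_lt_mul_right h8 hpi.le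
        have h11 : -1 < -1 - 2 * i := by exact_mod_cast h9
        have h12 : -1 - 2 * i < 1 := by exact_mod_cast h10
        omega
    rw [abs_lt]
    constructor
    · by_contra hc
      push Not at hc
      have hc' : y < -Real.pi := lt_of_le_of_ne hc hodd.2
      have h6 : x < 0 := by linarith
      have h7 : Real.sin x < 0 := Real.sin_neg_of_neg_of_neg_pi_lt h6 h3.1
      have h8 : 0 < Real.sin y := by
        have h9 : Real.sin (y + 2 * Real.pi) = Real.sin y := Real.sin_add_two_pi y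
        rw [← h9]
        exact Real.sin_pos_of_pos_of_lt_pi (by linarith) (by linarith)
      have h9 : 0 < ‖ω * ζ‖ ^ n * Real.sin y := mul_pos hn1 h8
      have h10 : ‖ζ‖ ^ n * Real.sin x < 0 := mul_neg_of_pos_of_neg hn2 h7
      linarith
    · by_contra hc
      push Not at hc
      have hc' : Real.pi < y := lt_of_le_of_ne hc (Ne.symm hodd.1)
      have h6 : 0 < x := by linarith
      have h7 : 0 < Real.sin x := Real.sin_pos_of_pos_of_lt_pi h6 h3.2
      have h8 : Real.sin y < 0 := by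
        have h9 : Real.sin (y - 2 * Real.pi) = Real.sin y := Real.sin_sub_two_pi y
        rw [← h9]
        exact Real.sin_neg_of_neg_of_neg_pi_lt (by linarith) (by linarith)
      have h9 : ‖ω * ζ‖ ^ n * Real.sin y < 0 := mul_neg_of_pos_of_neg hn1 h8
      have h10 : 0 < ‖ζ‖ ^ n * Real.sin x := mul_pos hn2 h7
      linarith
  refine ⟨key e, fun h1 => ?_⟩
  obtain ⟨e₁, h4⟩ := sec_cover hn (hslit.1 (sec_slit h1))
  rw [sec_disj h1 (key e₁ h4)]
  exact h4

theorem sec_ex (hn : 0 < n) {e e' : ZMod n} (h : Core.Adj e e') {ρ : ℝ} (hρ : 0 < ρ) :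
    ∃ ζ : ℂ, ‖ζ‖ < ρ ∧ ζ ∈ Sec n 0 e ∧ ζ ∈ Sec n 1 e' := by
  have hn' : (n : ℝ) ≠ 0 := Nat.cast_ne_zero.2 hn.ne'
  have hpi := Real.pi_pos
  have hnm : ∀ θ : ℝ, ‖((ρ / 2 : ℝ) : ℂ) * Complex.exp (θ * Complex.I)‖ = ρ / 2 := by
    intro θ
    rw [norm_mul, Complex.norm_exp_ofReal_mul_I, mul_one, Complex.norm_real, Real.norm_eq_abs,
      abs_of_pos (half_pos hρ)]
  have hne : ∀ θ : ℝ, ((ρ / 2 : ℝ) : ℂ) * Complex.exp (θ * Complex.I) ≠ 0 := by
    intro θ h1
    have h2 := hnm θ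
    rw [h1, norm_zero] at h2
    linarith
  have key : ∀ (k k' : ℤ) (x : ℝ), (k : ZMod n) = e → (k' : ZMod n) = e' →
      |x - 2 * k| < 1 → |x - (2 * k' + 1)| < 1 →
      ∃ ζ : ℂ, ‖ζ‖ < ρ ∧ ζ ∈ Sec n 0 e ∧ ζ ∈ Sec n 1 e' := by
    intro k k' x hn1 hn2 hx hx'
    have h1 : (n : ℝ) * (x * Real.pi / n) = x * Real.pi := by field_simp
    refine ⟨((ρ / 2 : ℝ) : ℂ) * Complex.exp ((x * Real.pi / n : ℝ) * Complex.I), ?_,
      ⟨hne _, x * Real.pi / n, k, ?_, hn1, ?_⟩, ⟨hne _, x * Real.pi / n, k', ?_, hn2, ?_⟩⟩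
    · rw [hnm]
      linarith
    · rw [hnm]
    · rw [h1, show x * Real.pi - (2 * k + (0 : ℕ)) * Real.pi = (x - 2 * k) * Real.pi by
        push_cast; ring, abs_mul, abs_of_pos hpi]
      nlinarith
    · rw [hnm]
    · rw [h1, show x * Real.pi - (2 * k' + (1 : ℕ)) * Real.pi = (x - (2 * k' + 1)) * Real.pi by
        push_cast; ring, abs_mul, abs_of_pos hpi]
      nlinarith
  rcases h with h | h
  · obtain ⟨k, hn1⟩ := ZMod.intCast_surjective e
    refine key k k (2 * k + 1 / 2) hn1 (hn1.trans h.symm) ?_ ?_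
    · rw [add_sub_cancel_left, abs_of_pos (by norm_num)]
      norm_num
    · rw [show 2 * (k : ℝ) + 1 / 2 - (2 * k + 1) = -(1 / 2) by ring, abs_neg,
        abs_of_pos (by norm_num)]
      norm_num
  · obtain ⟨k, hn1⟩ := ZMod.intCast_surjective e'
    refine key (k + 1) k (2 * k + 3 / 2) ?_ hn1 ?_ ?_
    · push_cast
      rw [hn1, h]
    · push_cast
      rw [show 2 * (k : ℝ) + 3 / 2 - 2 * (k + 1) = -(1 / 2) by ring, abs_neg,
        abs_of_pos (by norm_num)]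
      norm_num
    · rw [show 2 * (k : ℝ) + 3 / 2 - (2 * k + 1) = 1 / 2 by ring, abs_of_pos (by norm_num)]
      norm_num

end Pool.Agent.ANO2.Cone
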