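import Pool.Agent.ANO2.Cone.SectA
import Pool.Agent.ANO2.Cone.RotD
import Pool.Agent.ANO2.Cone.Dense
import Pool.Agent.ANO2.Geo2.SectorB
import Pool.Agent.ANO2.Geo2.SurfC

/-!
# ANO phase 2, Cone2: the sectors at a zero, final statement of the modules Geo2 and Cone2
-/

set_option autoImplicit false

open Set Filter Topology
open scoped UpperHalfPlane MatrixGroups

namespace Pool.Agent.ANO2.Cone

open Pool.Agent.ANO Geo2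

/-- the sectors in the half plane, in a chart `ψ` -/
def HSec (ψ : ℂ → ℂ) (n τ : ℕ) (e : ZMod n) : Set ℍ := {z | ψ (z : ℂ) ∈ Sec n τ e}

variable {n : ℕ} {ψ : ℂ → ℂ}

/-- an open neighbourhood on which `ψ` is continuous -/
private theorem exists_W {Q : QD} {s : ℂ} (hC : Chart Q s n ψ) :
    ∃ W : Set ℂ, IsOpen W ∧ s ∈ W ∧ ContinuousOn ψ W := by
  obtain ⟨W, hW, hWo, hs⟩ := eventually_nhds_iff.1 hC.analytic.eventually_analyticAt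
  exact ⟨W, hWo, hs, fun z hz => (hW z hz).continuousAt.continuousWithinAt⟩

private theorem pre_nhds {s : ℍ} {V : Set ℂ} (hV : V ∈ 𝓝 (s : ℂ)) :
    (fun z : ℍ => (z : ℂ)) ⁻¹' V ∈ 𝓝 s :=
  UpperHalfPlane.continuous_coe.continuousAt.preimage_mem_nhds hV

theorem close_x {S : ClosedSurface} {q : ℂ → ℂ} (h : IsQuadDiff S q) {s : ℍ} (hn : 0 < n)
    (hC : Chart (qd h) s n ψ) : ∃ V ∈ 𝓝 s, ∀ e, ∀ z' ∈ V, z' ∈ HSec ψ n 0 e → ∃ ε > 0,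
      ∀ z ∈ V, dU h z z' < ε → z ∈ HSec ψ n 0 e := by
  obtain ⟨W, hWo, hsW, hψ⟩ := exists_W hC
  obtain ⟨V, hV, hVp⟩ := sector (proper_qd h) (mem_qd h s) hC (hWo.mem_nhds hsW)
  refine ⟨_, pre_nhds (inter_mem hV (hWo.mem_nhds hsW)), fun e z' hz' hze => ?_⟩
  have hslit := sec_slit hze
  rw [pow_zero, one_mul] at hslit
  refine ⟨rx n ψ z', rx_pos.2 hslit, fun z hz hd => ?_⟩
  have ho : IsOpen (⋃ e' ∈ {e' : ZMod n | e' ≠ e}, Sec n 0 e') :=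
    isOpen_biUnion fun e' _ => sec_open 0 e'
  have h1 := hVp (W ∩ ψ ⁻¹' Sec n 0 e) (W ∩ ψ ⁻¹' ⋃ e' ∈ {e' : ZMod n | e' ≠ e}, Sec n 0 e')
    (hψ.isOpen_inter_preimage hWo (sec_open 0 e)) (hψ.isOpen_inter_preimage hWo ho) ?_ ?_
    z hz.1 z' hz'.1 ⟨hz'.2, hze⟩ hd
  · exact h1.2
  · intro x hx hxs
    obtain ⟨e', he'⟩ := sec_cover hn (τ := 0) (ζ := ψ x) (by rwa [pow_zero, one_mul])
    by_cases h2 : e' = e
    · left
      rw [← h2]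
      exact ⟨hx, he'⟩
    · right
      exact ⟨hx, mem_iUnion₂.2 ⟨e', h2, he'⟩⟩
  · rintro x - ⟨⟨-, h2⟩, -, h3⟩
    obtain ⟨e', h4, h5⟩ := mem_iUnion₂.1 h3
    exact h4 (sec_disj h5 h2)

theorem close_y {S : ClosedSurface} {q : ℂ → ℂ} (h : IsQuadDiff S q) {s : ℍ} (hn : 0 < n)
    (hC : Chart (qd h) s n ψ) : ∃ V ∈ 𝓝 s, ∀ e, ∀ z' ∈ V, z' ∈ HSec ψ n 1 e → ∃ ε > 0,
      ∀ z ∈ V, dS h z z' < ε → z ∈ HSec ψ n 1 e := by
  obtain ⟨W, hWo, hsW, hψ⟩ := exists_W hC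
  obtain ⟨V, hV, hVp⟩ := sectorY (proper_qd h) (mem_qd h s) hC (hWo.mem_nhds hsW)
  refine ⟨_, pre_nhds (inter_mem hV (hWo.mem_nhds hsW)), fun e z' hz' hze => ?_⟩
  have hslit := sec_slit hze
  rw [pow_one, neg_one_mul] at hslit
  refine ⟨ry n ψ z', ry_pos.2 hslit, fun z hz hd => ?_⟩
  have ho : IsOpen (⋃ e' ∈ {e' : ZMod n | e' ≠ e}, Sec n 1 e') :=
    isOpen_biUnion fun e' _ => sec_open 1 e'
  have h1 := hVp (W ∩ ψ ⁻¹' Sec n 1 e) (W ∩ ψ ⁻¹' ⋃ e' ∈ {e' : ZMod n | e' ≠ e}, Sec n 1 e')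
    (hψ.isOpen_inter_preimage hWo (sec_open 1 e)) (hψ.isOpen_inter_preimage hWo ho) ?_ ?_
    z hz.1 z' hz'.1 ⟨hz'.2, hze⟩ hd
  · exact h1.2
  · intro x hx hxs
    obtain ⟨e', he'⟩ := sec_cover hn (τ := 1) (ζ := ψ x) (by rwa [pow_one, neg_one_mul])
    by_cases h2 : e' = e
    · left
      rw [← h2]
      exact ⟨hx, he'⟩
    · right
      exact ⟨hx, mem_iUnion₂.2 ⟨e', h2, he'⟩⟩
  · rintro x - ⟨⟨-, h2⟩, -, h3⟩
    obtain ⟨e', h4, h5⟩ := mem_iUnion₂.1 h3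
    exact h4 (sec_disj h5 h2)

/-- every quadrant contains open sets close to `s` -/
theorem quad_open {Q : QD} {s : ℍ} (hn : 0 < n) (hC : Chart Q s n ψ) {e e' : ZMod n}
    (he : Core.Adj e e') {V : Set ℍ} (hV : V ∈ 𝓝 s) :
    ∃ U : Set ℍ, IsOpen U ∧ U.Nonempty ∧ U ⊆ V ∧ U ⊆ HSec ψ n 0 e ∧ U ⊆ HSec ψ n 1 e' := by
  obtain ⟨W, hWo, hsW, hψ⟩ := exists_W hC
  obtain ⟨V', hV'V, hV'o, hsV'⟩ := mem_nhds_iff.1 hV
  have hmap : map ψ (𝓝 (s : ℂ)) = 𝓝 (ψ s) :=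
    hC.analytic.hasStrictDerivAt.map_nhds_eq hC.deriv_ne
  have h1 : (fun z : ℍ => (z : ℂ)) '' V' ∩ W ∈ 𝓝 (s : ℂ) :=
    inter_mem (UpperHalfPlane.isOpenEmbedding_coe.image_mem_nhds.2 (hV'o.mem_nhds hsV'))
      (hWo.mem_nhds hsW)
  have h2 : ψ '' ((fun z : ℍ => (z : ℂ)) '' V' ∩ W) ∈ 𝓝 (0 : ℂ) := by
    have h3 := image_mem_map h1 (m := ψ)
    rw [hmap, hC.zero] at h3
    exact h3
  obtain ⟨ρ, hρ, hb⟩ := Metric.mem_nhds_iff.1 h2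
  obtain ⟨ζ, hζ, hζ1, hζ2⟩ := sec_ex hn he hρ
  obtain ⟨_, ⟨⟨z, hz, rfl⟩, hzW⟩, hzζ⟩ := hb (by rwa [Metric.mem_ball, dist_zero_right])
  have ho : IsOpen (W ∩ ψ ⁻¹' (Sec n 0 e ∩ Sec n 1 e')) :=
    hψ.isOpen_inter_preimage hWo ((sec_open 0 e).inter (sec_open 1 e'))
  refine ⟨V' ∩ (fun z : ℍ => (z : ℂ)) ⁻¹' (W ∩ ψ ⁻¹' (Sec n 0 e ∩ Sec n 1 e')),
    hV'o.inter (ho.preimage UpperHalfPlane.continuous_coe), ⟨z, hz, hzW, ?_, ?_⟩,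
    fun x hx => hV'V hx.1, fun x hx => hx.2.2.1, fun x hx => hx.2.2.2⟩
  · rw [hzζ]
    exact hζ1
  · rw [hzζ]
    exact hζ2

theorem inv_sec {s : ℍ} (hn : 0 < n) {H : ℍ → ℍ} {τ : ℕ} (hτ : τ = 0 ∨ τ = 1) {L : ℝ}
    (hL : 1 < L)
    (h : ∀ᶠ z : ℍ in 𝓝 s, ∃ ω : ℂ, |ω.arg| < Real.pi / n ∧ ψ (H z : ℂ) = ω * ψ (z : ℂ) ∧
      ∀ v : ℂ, v ^ 2 = ψ (z : ℂ) ^ n → (ω * ψ (z : ℂ)) ^ n = stretch L v ^ 2) :
    ∀ᶠ z in 𝓝 s, ∀ e, z ∈ HSec ψ n τ e ↔ H z ∈ HSec ψ n τ e := by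
  filter_upwards [h] with z ⟨ω, h1, h2, h3⟩ e
  change ψ (z : ℂ) ∈ Sec n τ e ↔ ψ (H z : ℂ) ∈ Sec n τ e
  rw [h2]
  exact sec_inv hn hτ (by linarith) h1 h3

/-- The local structure at a zero. -/
theorem surfCone {S : SurfaceMap} {q : ℂ → ℂ} {l : ℝ} (h : IsPA S q l) :
    Nonempty (SurfCone S (dU h.quad) (dS h.quad)) := by
  obtain ⟨s, hs⟩ := exists_zero h.quad
  obtain ⟨n, ψ, hC⟩ := normal_form (qd h.quad) (mem_qd h.quad s)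
  have h3 : 3 ≤ n := chart_three hC hs
  have hn : 0 < n := by omega
  obtain ⟨m, hm, H, hH, -, hcone⟩ := cone_power h hs hC
  obtain ⟨L, hL, hloc⟩ := (hcone 1 one_pos).2
  rw [Function.iterate_one] at hloc
  exact ⟨{
    n := n
    three_le := h3
    s := s
    m := m
    m_pos := hm
    H := H
    lift := hH
    cone := fun j hj => (hcone j hj).1
    XS := HSec ψ n 0
    YS := HSec ψ n 1
    adj := Eventually.of_forall fun z e e' h1 h2 => sec_adj h1 h2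
    closeX := close_x h.quad hn hC
    closeY := close_y h.quad hn hC
    invX := inv_sec hn (Or.inl rfl) hL hloc
    invY := inv_sec hn (Or.inr rfl) hL hloc
    dense := by
      intro e e' he V hV
      obtain ⟨U, hU, hne, h1, h2, h4⟩ := quad_open hn hC he hV
      obtain ⟨z, hz, -, m', H', hm', hH', hreg⟩ := dense_regular h hU hne
      exact ⟨z, h1 hz, h2 hz, h4 hz, m', H', hm', hH', hreg⟩ }⟩

/-- The modules Geo2 and Cone2. -/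
theorem paGeoStatement : PAGeoStatement := by
  intro S q l h
  obtain ⟨C⟩ := surfCone h
  obtain ⟨z, -, -, m, H, hm, hH, hreg⟩ := dense_regular h isOpen_univ univ_nonempty
  exact paGeo h C ⟨z, m, H, hm, hH, hreg⟩

end Pool.Agent.ANO2.Cone
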